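import Mathlib

/-!
Definitions for MP_14431a_gt (minimal weight of an omega-bounded abelian group that is not
projectively weight-small).  Abelian groups are written additively.
-/

open Cardinal Topology Set

namespace Pool.Agent.Kur

universe u

/-- The weight of a topological space: the least cardinality of a base. -/
noncomputable def weight (X : Type u) [TopologicalSpace X] : Cardinal.{u} :=
  sInf {κ : Cardinal.{u} | ∃ B : Set (Set X), TopologicalSpace.IsTopologicalBasis B ∧ #B = κ}

/-- A space is `ω`-bounded if the closure of every countable subset is compact. -/
def OmegaBounded (X : Type u) [TopologicalSpace X] : Prop :=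
  ∀ D : Set X, D.Countable → IsCompact (closure D)

/-- A topological (additive) group is precompact if every neighbourhood of `0` has finitely many
translates covering the group. -/
def Precompact (G : Type u) [AddCommGroup G] [TopologicalSpace G] : Prop :=
  ∀ U ∈ 𝓝 (0 : G), ∃ t : Set G, t.Finite ∧ ∀ x : G, ∃ y ∈ t, x - y ∈ U

/-- Continuous characters, i.e. continuous homomorphisms to the circle group. -/
abbrev CChar (G : Type u) [AddCommGroup G] [TopologicalSpace G] : Type u :=
  {χ : AddChar G Circle // Continuous χ}

/-- A (Hausdorff) topological group `G` is projectively weight-small if every continuous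
homomorphic image `H` of `G` (a Hausdorff topological group) satisfies `w(H) ≤ |H|`. -/
def ProjectivelyWeightSmall (G : Type) [AddCommGroup G] [TopologicalSpace G] : Prop :=
  ∀ (H : Type) [AddGroup H] [TopologicalSpace H] [IsTopologicalAddGroup H] [T2Space H]
    (f : G →+ H), Continuous f → Function.Surjective f → weight H ≤ #H

/-- The cardinal `σ`: the least weight of an `ω`-bounded abelian (Hausdorff) topological group that
is not projectively weight-small. -/
noncomputable def sigma : Cardinal.{0} :=
  sInf {κ : Cardinal.{0} | ∃ (G : Type) (_ : AddCommGroup G) (_ : TopologicalSpace G)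
    (_ : IsTopologicalAddGroup G) (_ : T2Space G),
      OmegaBounded G ∧ weight G = κ ∧ ¬ ProjectivelyWeightSmall G}

/-- `TraceFamily lam`: there are more than `lam` subsets of a set of size at most `lam` such that,
for every countable subset `J`, their traces on `J` are so few that `2 ^ (number of traces) ≤ lam`.
-/
def TraceFamily (lam : Cardinal.{0}) : Prop :=
  ∃ (I : Type) (F : Set (Set I)), #I ≤ lam ∧ lam < #F ∧
    ∀ J : Set I, J.Countable → (2 : Cardinal.{0}) ^ #((fun A : Set I => A ∩ J) '' F) ≤ lam

/-- Kurepa's Hypothesis (there is a Kurepa family): there are at least `ℵ₂` subsets of `ω₁` whose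
traces on every countable initial segment of `ω₁` are countably many. -/
def KurepaHypothesis : Prop :=
  ∃ F : Set (Set (Ordinal.omega.{0} 1).ToType), ℵ_ 2 ≤ #F ∧
    ∀ α : (Ordinal.omega.{0} 1).ToType, ((fun A => A ∩ Set.Iio α) '' F).Countable

end Pool.Agent.Kur
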