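import Mathlib
import Pool.Agent.Kur.Defs

open Cardinal Topology Set

namespace Pool.Agent.Kur

universe u

theorem circle_step (w : Circle) (h : ‖(w : ℂ) - 1‖ ≤ 1) :
    3 * ‖(w : ℂ) - 1‖ ^ 2 ≤ ‖((w ^ 2 : Circle) : ℂ) - 1‖ ^ 2 := by
  have hw : ‖(w : ℂ)‖ = 1 := Circle.norm_coe w
  have hp := parallelogram_law_with_norm ℝ (w : ℂ) (1 : ℂ)
  rw [hw] at hp
  simp only [norm_one] at hp
  have hfac : ((w ^ 2 : Circle) : ℂ) - 1 = ((w : ℂ) - 1) * ((w : ℂ) + 1) := by
    push_cast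
    ring
  rw [hfac, norm_mul, mul_pow]
  have h1 : 3 ≤ ‖(w : ℂ) + 1‖ ^ 2 := by
    have : ‖(w : ℂ) - 1‖ ^ 2 ≤ 1 := by
      have := pow_le_one₀ (norm_nonneg _) h (n := 2)
      simpa using this
    nlinarith
  nlinarith [sq_nonneg ‖(w : ℂ) - 1‖]

theorem circle_eq_one_of_forall {z : Circle} (h : ∀ n : ℕ, ‖((z ^ n : Circle) : ℂ) - 1‖ ≤ 1) :
    z = 1 := by
  have key : ∀ k : ℕ, (3 : ℝ) ^ k * ‖(z : ℂ) - 1‖ ^ 2 ≤ ‖((z ^ (2 ^ k) : Circle) : ℂ) - 1‖ ^ 2 := by
    intro k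
    induction k with
    | zero => simp
    | succ k ih =>
      have h1 := circle_step (z ^ (2 ^ k)) (h (2 ^ k))
      rw [← pow_mul, ← pow_succ] at h1
      calc (3 : ℝ) ^ (k + 1) * ‖(z : ℂ) - 1‖ ^ 2 = 3 * (3 ^ k * ‖(z : ℂ) - 1‖ ^ 2) := by ring
        _ ≤ 3 * ‖((z ^ (2 ^ k) : Circle) : ℂ) - 1‖ ^ 2 := by linarith
        _ ≤ _ := h1
  have h0 : ‖(z : ℂ) - 1‖ ^ 2 = 0 := by
    by_contra hne
    have hpos : 0 < ‖(z : ℂ) - 1‖ ^ 2 := lt_of_le_of_ne (sq_nonneg _) (Ne.symm hne)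
    obtain ⟨k, hk⟩ := pow_unbounded_of_one_lt (1 / ‖(z : ℂ) - 1‖ ^ 2) (by norm_num : (1 : ℝ) < 3)
    have h2 := key k
    have h3 : ‖((z ^ (2 ^ k) : Circle) : ℂ) - 1‖ ^ 2 ≤ 1 := by
      have := pow_le_one₀ (norm_nonneg _) (h (2 ^ k)) (n := 2)
      simpa using this
    rw [div_lt_iff₀ hpos] at hk
    linarith
  have h1 : (z : ℂ) - 1 = 0 := by
    have := pow_eq_zero_iff (two_ne_zero) |>.1 h0
    exact norm_eq_zero.1 this
  ext
  rw [Circle.coe_one]
  exact sub_eq_zero.1 h1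

theorem mk_finset_le (α : Type u) : #(Finset α) ≤ max #α ℵ₀ := by
  classical
  have h1 : #(Finset α) ≤ #(List α) := by
    refine Cardinal.mk_le_of_surjective (f := fun l : List α => l.toFinset) ?_
    intro s
    exact ⟨s.toList, by simp⟩
  exact h1.trans ((mk_list_le_max α).trans (by rw [max_comm]))

theorem weight_le_card_basis {X : Type u} [TopologicalSpace X] {B : Set (Set X)}
    (hB : TopologicalSpace.IsTopologicalBasis B) : weight X ≤ #B :=
  csInf_le (OrderBot.bddBelow _) ⟨B, hB, rfl⟩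

theorem exists_basis (X : Type u) [TopologicalSpace X] :
    ∃ B : Set (Set X), TopologicalSpace.IsTopologicalBasis B ∧ #B = weight X := by
  have h : (({κ : Cardinal.{u} | ∃ B : Set (Set X), TopologicalSpace.IsTopologicalBasis B ∧
      #B = κ}) : Set Cardinal.{u}).Nonempty :=
    ⟨_, _, TopologicalSpace.isTopologicalBasis_opens, rfl⟩
  exact csInf_mem h

theorem weight_le_of_family {G ι : Type u} {Y : Type} [TopologicalSpace G] [TopologicalSpace Y]
    [SecondCountableTopology Y] (f : ι → G → Y) (hf : ∀ i, Continuous (f i))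
    (h : ∀ x : G, ∀ U ∈ 𝓝 x, ∃ s : Finset ι, ∃ V : ι → Set Y,
      (∀ i ∈ s, IsOpen (V i) ∧ f i x ∈ V i) ∧ ∀ y, (∀ i ∈ s, f i y ∈ V i) → y ∈ U) :
    weight G ≤ max #ι ℵ₀ := by
  classical
  let C := TopologicalSpace.countableBasis Y
  have hCb : TopologicalSpace.IsTopologicalBasis C := TopologicalSpace.isBasis_countableBasis Y
  have hCc : C.Countable := TopologicalSpace.countable_countableBasis Y
  let Bs : Finset (ι × C) → Set G := fun t => {x | ∀ p ∈ t, f p.1 x ∈ (p.2 : Set Y)}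
  have hbasis : TopologicalSpace.IsTopologicalBasis (Set.range Bs) := by
    refine TopologicalSpace.isTopologicalBasis_of_isOpen_of_nhds ?_ ?_
    · rintro _ ⟨t, rfl⟩
      have : Bs t = ⋂ p ∈ t, (f p.1) ⁻¹' (p.2 : Set Y) := by
        ext x; simp [Bs]
      rw [this]
      exact isOpen_biInter_finset fun p _ => (hCb.isOpen p.2.2).preimage (hf p.1)
    · intro x U hxU hU
      obtain ⟨s, V, hV, hs⟩ := h x U (hU.mem_nhds hxU)
      have : ∀ i : s, ∃ c : C, f i x ∈ (c : Set Y) ∧ (c : Set Y) ⊆ V i := by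
        intro i
        obtain ⟨hVo, hVx⟩ := hV i i.2
        obtain ⟨c, hc, hxc, hcV⟩ := hCb.exists_subset_of_mem_open hVx hVo
        exact ⟨⟨c, hc⟩, hxc, hcV⟩
      choose c hcx hcV using this
      refine ⟨_, ⟨(Finset.univ : Finset s).image (fun i : s => ((i : ι), c i)), rfl⟩, ?_, ?_⟩
      · intro p hp
        simp only [Finset.mem_image, Finset.mem_univ, true_and] at hp
        obtain ⟨i, rfl⟩ := hp
        exact hcx i
      · intro y hy
        refine hs y fun i hi => hcV ⟨i, hi⟩ ?_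
        exact hy _ (Finset.mem_image.2 ⟨⟨i, hi⟩, Finset.mem_univ _, rfl⟩)
  refine (weight_le_card_basis hbasis).trans (Cardinal.mk_range_le.trans ?_)
  refine (mk_finset_le _).trans ?_
  refine max_le ?_ (le_max_right _ _)
  haveI : Countable C := hCc.to_subtype
  have h1 : #(ι × C) = Cardinal.lift.{0} #ι * Cardinal.lift.{u} #C := Cardinal.mk_prod _ _
  rw [h1]
  have h2 : Cardinal.lift.{u} #C ≤ ℵ₀ := by
    rw [Cardinal.lift_le_aleph0]
    exact Cardinal.mk_le_aleph0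
  calc Cardinal.lift.{0} #ι * Cardinal.lift.{u} #C ≤ #ι * ℵ₀ := by
        rw [Cardinal.lift_id'.{0, u}]
        exact mul_le_mul_right h2 _
    _ ≤ max #ι ℵ₀ := Cardinal.mul_le_max_of_aleph0_le_right le_rfl

theorem precompact_of_omegaBounded {G : Type u} [AddCommGroup G] [TopologicalSpace G]
    [IsTopologicalAddGroup G] (hG : OmegaBounded G) : Precompact G := by
  intro U hU
  by_contra hcon
  push Not at hcon
  have hstep : ∀ s : Finset G, (∀ x ∈ s, True) → ∃ y : G, True ∧ ∀ x ∈ s, y - x ∉ U := by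
    intro s _
    obtain ⟨x, hx⟩ := hcon (s : Set G) s.finite_toSet
    exact ⟨x, trivial, fun y hy => hx y hy⟩
  obtain ⟨f, -, hf⟩ := exists_seq_of_forall_finset_exists (fun _ : G => True)
    (fun x y => y - x ∉ U) hstep
  have hK := hG (Set.range f) (Set.countable_range f)
  -- a symmetric-type neighbourhood
  obtain ⟨V, hV, hVU⟩ : ∃ V ∈ 𝓝 (0 : G), ∀ a ∈ V, ∀ b ∈ V, a - b ∈ U := by
    have hc : Filter.Tendsto (fun p : G × G => p.1 - p.2) (𝓝 (0, 0)) (𝓝 (0 - 0)) :=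
      (continuous_fst.sub continuous_snd).tendsto _
    rw [sub_zero] at hc
    have := hc hU
    rw [Filter.mem_map, nhds_prod_eq, Filter.mem_prod_self_iff] at this
    obtain ⟨V, hV, hVV⟩ := this
    exact ⟨V, hV, fun a ha b hb => hVV (Set.mk_mem_prod ha hb)⟩
  have hcov : ∀ y ∈ closure (Set.range f), {x : G | x - y ∈ V} ∈ 𝓝 y := by
    intro y _
    have hc : Filter.Tendsto (fun x : G => x - y) (𝓝 y) (𝓝 (y - y)) :=
      (continuous_id.sub continuous_const).tendsto _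
    rw [sub_self] at hc
    exact hc hV
  obtain ⟨t, _, ht⟩ := hK.elim_nhds_subcover (fun y => {x : G | x - y ∈ V}) hcov
  have hmem : ∀ n : ℕ, ∃ y : t, f n - (y : G) ∈ V := by
    intro n
    have h1 : f n ∈ closure (Set.range f) := subset_closure (Set.mem_range_self n)
    have h2 := ht h1
    simp only [Set.mem_iUnion, Set.mem_setOf_eq] at h2
    obtain ⟨y, hy, hyv⟩ := h2
    exact ⟨⟨y, hy⟩, hyv⟩
  choose g hg using hmem
  obtain ⟨m, n, hmn, hgmn⟩ := Finite.exists_ne_map_eq_of_infinite g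
  rcases lt_or_gt_of_ne hmn with hlt | hlt
  · refine hf m n hlt ?_
    have := hVU _ (hg n) _ (hg m)
    rw [hgmn] at this
    simpa using this
  · refine hf n m hlt ?_
    have := hVU _ (hg m) _ (hg n)
    rw [hgmn] at this
    simpa using this

theorem precompact_of_compact {G : Type u} [AddCommGroup G] [TopologicalSpace G]
    [IsTopologicalAddGroup G] [CompactSpace G] : Precompact G :=
  precompact_of_omegaBounded fun _ _ => isClosed_closure.isCompact

theorem circle_sub_norm {w v : Circle} : ‖((w / v : Circle) : ℂ) - 1‖ = ‖(w : ℂ) - (v : ℂ)‖ := by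
  have hv : ‖(v : ℂ)‖ = 1 := Circle.norm_coe v
  have hv0 : (v : ℂ) ≠ 0 := Circle.coe_ne_zero v
  have h : (w : ℂ) - (v : ℂ) = (((w / v : Circle) : ℂ) - 1) * (v : ℂ) := by
    rw [Circle.coe_div, sub_mul, div_mul_cancel₀ _ hv0, one_mul]
  rw [h, norm_mul, hv, mul_one]

theorem addChar_eq_of_close {G : Type u} [AddCommGroup G] (χ ψ : AddChar G Circle)
    (h : ∀ x : G, ‖((χ x : Circle) : ℂ) - (ψ x : ℂ)‖ ≤ 1) : χ = ψ := by
  have h1 : ∀ x : G, χ x / ψ x = 1 := by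
    intro x
    apply circle_eq_one_of_forall
    intro n
    have h2 : (χ x / ψ x) ^ n = χ (n • x) / ψ (n • x) := by
      rw [div_pow, AddChar.map_nsmul_eq_pow, AddChar.map_nsmul_eq_pow]
    rw [h2, circle_sub_norm]
    exact h _
  ext x
  have := h1 x
  rw [div_eq_one] at this
  rw [this]

theorem card_cchar_le {G : Type u} [AddCommGroup G] [TopologicalSpace G]
    [IsTopologicalAddGroup G] (hG : Precompact G) : #(CChar G) ≤ max (weight G) ℵ₀ := by
  classical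
  obtain ⟨B, hB, hBw⟩ := exists_basis G
  have hU : ∀ χ : CChar G, ∃ U : B, (0 : G) ∈ (U : Set G) ∧
      ∀ x ∈ (U : Set G), ‖((χ.1 x : Circle) : ℂ) - 1‖ < 1 / 4 := by
    intro χ
    have hopen : IsOpen {x : G | ‖((χ.1 x : Circle) : ℂ) - 1‖ < 1 / 4} := by
      have hc : Continuous fun x : G => ‖((χ.1 x : Circle) : ℂ) - 1‖ :=
        ((continuous_subtype_val.comp χ.2).sub continuous_const).norm
      exact isOpen_lt hc continuous_const
    have h0 : (0 : G) ∈ {x : G | ‖((χ.1 x : Circle) : ℂ) - 1‖ < 1 / 4} := by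
      simp
    obtain ⟨U, hUB, h0U, hUs⟩ := hB.exists_subset_of_mem_open h0 hopen
    exact ⟨⟨U, hUB⟩, h0U, fun x hx => hUs hx⟩
  choose u hu0 hu using hU
  have hfib : #(CChar G) = #(Σ U : B, {χ : CChar G // u χ = U}) :=
    (Cardinal.mk_congr (Equiv.sigmaFiberEquiv u)).symm
  rw [hfib, Cardinal.mk_sigma]
  have hcount : ∀ U : B, #{χ : CChar G // u χ = U} ≤ ℵ₀ := by
    intro U
    rw [Cardinal.mk_le_aleph0_iff]
    by_cases h0U : (0 : G) ∈ (U : Set G)
    · have hUn : (U : Set G) ∈ 𝓝 (0 : G) := (hB.isOpen U.2).mem_nhds h0U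
      obtain ⟨t, htf, ht⟩ := hG U hUn
      haveI : Finite t := htf
      have happrox : ∀ χ : {χ : CChar G // u χ = U}, ∀ y : t, ∃ n : ℕ,
          ‖((χ.1.1 y : Circle) : ℂ) - TopologicalSpace.denseSeq ℂ n‖ < 1 / 8 := by
        intro χ y
        obtain ⟨n, hn⟩ := Metric.denseRange_iff.1 (TopologicalSpace.denseRange_denseSeq ℂ)
          ((χ.1.1 y : Circle) : ℂ) (1 / 8) (by norm_num)
        exact ⟨n, by rwa [dist_eq_norm] at hn⟩
      choose c hc using happrox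
      refine Function.Injective.countable (f := c) ?_
      intro χ ψ hcc
      apply Subtype.ext
      apply Subtype.ext
      apply addChar_eq_of_close
      intro x
      obtain ⟨y, hy, hxy⟩ := ht x
      have hχ := hu χ.1 (x - y) (by rw [χ.2]; exact hxy)
      have hψ := hu ψ.1 (x - y) (by rw [ψ.2]; exact hxy)
      have h1 := hc χ ⟨y, hy⟩
      have h2 := hc ψ ⟨y, hy⟩
      rw [← hcc] at h2
      have hx : x = (x - y) + y := by abel
      have e1 : ((χ.1.1 x : Circle) : ℂ) = (χ.1.1 (x - y) : ℂ) * (χ.1.1 y : ℂ) := by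
        conv_lhs => rw [hx]
        rw [AddChar.map_add_eq_mul, Circle.coe_mul]
      have e2 : ((ψ.1.1 x : Circle) : ℂ) = (ψ.1.1 (x - y) : ℂ) * (ψ.1.1 y : ℂ) := by
        conv_lhs => rw [hx]
        rw [AddChar.map_add_eq_mul, Circle.coe_mul]
      have e3 : ((χ.1.1 x : Circle) : ℂ) - (ψ.1.1 x : ℂ) =
          ((χ.1.1 (x - y) : ℂ) - 1) * (χ.1.1 y : ℂ) - ((ψ.1.1 (x - y) : ℂ) - 1) * (ψ.1.1 y : ℂ)
          + (((χ.1.1 y : ℂ) - TopologicalSpace.denseSeq ℂ (c χ ⟨y, hy⟩)) -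
            ((ψ.1.1 y : ℂ) - TopologicalSpace.denseSeq ℂ (c χ ⟨y, hy⟩))) := by
        rw [e1, e2]; ring
      rw [e3]
      have n1 : ‖((χ.1.1 (x - y) : ℂ) - 1) * (χ.1.1 y : ℂ)‖ < 1 / 4 := by
        rw [norm_mul, Circle.norm_coe, mul_one]; exact hχ
      have n2 : ‖((ψ.1.1 (x - y) : ℂ) - 1) * (ψ.1.1 y : ℂ)‖ < 1 / 4 := by
        rw [norm_mul, Circle.norm_coe, mul_one]; exact hψ
      refine (norm_add_le _ _).trans ?_
      have m1 := norm_sub_le (((χ.1.1 (x - y) : ℂ) - 1) * (χ.1.1 y : ℂ))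
        (((ψ.1.1 (x - y) : ℂ) - 1) * (ψ.1.1 y : ℂ))
      have m2 := norm_sub_le ((χ.1.1 y : ℂ) - TopologicalSpace.denseSeq ℂ (c χ ⟨y, hy⟩))
        ((ψ.1.1 y : ℂ) - TopologicalSpace.denseSeq ℂ (c χ ⟨y, hy⟩))
      linarith
    · have : IsEmpty {χ : CChar G // u χ = U} := by
        refine ⟨fun χ => h0U ?_⟩
        have := hu0 χ.1
        rwa [χ.2] at this
      infer_instance
  calc (Cardinal.sum fun U : B => #{χ : CChar G // u χ = U})
      ≤ Cardinal.sum fun _ : B => (ℵ₀ : Cardinal.{u}) := Cardinal.sum_le_sum _ _ hcount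
    _ = #B * ℵ₀ := by simp
    _ ≤ max #B ℵ₀ := Cardinal.mul_le_max_of_aleph0_le_right le_rfl
    _ = max (weight G) ℵ₀ := by rw [hBw]

end Pool.Agent.Kur
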