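import Pool.Agent.Kur.Defs

/-!
Peter-Weyl theorem for compact abelian groups (continuous characters separate points), via the
Gelfand theory of a commutative Banach algebra of operators on `L²` (helper65).
-/

set_option autoImplicit false
set_option linter.unusedSectionVars false

namespace Pool.Agent.Kur

universe u

open Filter Topology ComplexConjugate MeasureTheory

namespace PWaux

/-- A nonzero normal element of a closed commutative subalgebra of a C*-algebra is not killed by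
some character of the subalgebra. -/
theorem exists_algHom_ne_zero {B : Type*} [CStarAlgebra B] (A : Subalgebra ℂ B)
    (hA : IsClosed (A : Set B)) (hcomm : ∀ x ∈ A, ∀ y ∈ A, x * y = y * x) (a : A) (ha : a ≠ 0)
    (hn : IsStarNormal (a : B)) :
    ∃ φ : A →ₐ[ℂ] ℂ, φ a ≠ 0 ∧ ∀ b : A, ‖φ b‖ ≤ ‖b‖ := by
  have : Nontrivial A := ⟨⟨a, 0, ha⟩⟩
  have : Nontrivial B := ⟨⟨(a : B), 0, fun h => ha (Subtype.ext h)⟩⟩
  let _ : NormedCommRing A :=
    { (inferInstance : NormedRing A) with
      mul_comm := fun x y => Subtype.ext (hcomm x x.2 y y.2) }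
  have : CompleteSpace A := hA.completeSpace_coe
  have h1 := spectrum.pow_nnnorm_pow_one_div_tendsto_nhds_spectralRadius a
  have h2 := spectrum.pow_nnnorm_pow_one_div_tendsto_nhds_spectralRadius (a : B)
  have h3 : spectralRadius ℂ a = spectralRadius ℂ (a : B) := tendsto_nhds_unique h1 h2
  rw [hn.spectralRadius_eq_nnnorm] at h3
  obtain ⟨z, hz, hz'⟩ := spectrum.exists_nnnorm_eq_spectralRadius a
  rw [h3] at hz'
  obtain ⟨f, hf⟩ := WeakDual.CharacterSpace.mem_spectrum_iff_exists.1 hz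
  have hz0 : z ≠ 0 := by
    intro h
    rw [h] at hz'
    simp only [nnnorm_zero, ENNReal.coe_zero] at hz'
    have : ‖(a : B)‖₊ = 0 := by exact_mod_cast hz'.symm
    exact ha (Subtype.ext (nnnorm_eq_zero.1 this))
  have : NormOneClass A := ⟨by
    change ‖((1 : A) : B)‖ = 1
    simp⟩
  refine ⟨WeakDual.CharacterSpace.equivAlgHom f, ?_, ?_⟩
  · change f a ≠ 0
    rw [hf]; exact hz0
  · intro b
    exact AlgHom.norm_apply_le_self (WeakDual.CharacterSpace.equivAlgHom f) b

section

variable {E : Type*} [NormedAddCommGroup E] [InnerProductSpace ℂ E] [CompleteSpace E]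
variable {K : Type*} [CommGroup K] [TopologicalSpace K]

theorem star_unitary_rep (U : K → (E →L[ℂ] E)) (hmul : ∀ x y, U (x * y) = U x * U y)
    (h1 : U 1 = 1) (hiso : ∀ x v, ‖U x v‖ = ‖v‖) (x : K) : star (U x) = U x⁻¹ := by
  let L : E →ₗᵢ[ℂ] E := ⟨(U x : E →ₗ[ℂ] E), hiso x⟩
  have hL : ∀ v w, inner ℂ (U x v) (U x w) = inner ℂ v w := fun v w => L.inner_map_map v w
  rw [ContinuousLinearMap.star_eq_adjoint]
  symm
  rw [ContinuousLinearMap.eq_adjoint_iff]
  intro v w
  have h2 : U x (U x⁻¹ v) = v := by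
    have : (U x * U x⁻¹) v = v := by rw [← hmul, mul_inv_cancel, h1]; rfl
    exact this
  calc inner ℂ (U x⁻¹ v) w = inner ℂ (U x (U x⁻¹ v)) (U x w) := (hL _ _).symm
    _ = inner ℂ v (U x w) := by rw [h2]

/-- abstract form of the Peter-Weyl argument for compact abelian groups -/
theorem exists_char_of_operator (U : K → (E →L[ℂ] E)) (hmul : ∀ x y, U (x * y) = U x * U y)
    (h1 : U 1 = 1) (hiso : ∀ x v, ‖U x v‖ = ‖v‖) (T : E →L[ℂ] E)
    (hTU : ∀ x, Commute T (U x)) (hT : ∀ S : E →L[ℂ] E, (∀ x, Commute S (U x)) → Commute T S)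
    (hcont : Continuous fun x => U x * T) (g : K) (hg : T * (1 - U g) ≠ 0) :
    ∃ χ : K →* Circle, Continuous χ ∧ χ g ≠ 1 := by
  let S0 : Set (E →L[ℂ] E) := {T} ∪ Set.range U
  have hS0 : ∀ s ∈ S0, ∀ t ∈ S0, s * t = t * s := by
    rintro s (hs | ⟨x, rfl⟩) t (ht | ⟨y, rfl⟩)
    · rw [hs, ht]
    · rw [hs]; exact hTU y
    · rw [ht]; exact (hTU x).symm
    · rw [← hmul, ← hmul, mul_comm]
  let A : Subalgebra ℂ (E →L[ℂ] E) := Subalgebra.centralizer ℂ (Set.centralizer S0)
  have hS0c : S0 ⊆ Set.centralizer S0 := fun s hs t ht => (hS0 s hs t ht).symm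
  have hAsub : (A : Set (E →L[ℂ] E)) ⊆ Set.centralizer S0 := by
    intro a ha t ht
    exact ha t (hS0c ht)
  have hAcomm : ∀ x ∈ A, ∀ y ∈ A, x * y = y * x := by
    intro x hx y hy
    exact (hx y (hAsub hy)).symm
  have hAclosed : IsClosed (A : Set (E →L[ℂ] E)) := by
    have : (A : Set (E →L[ℂ] E)) = Set.centralizer (Set.centralizer S0) := rfl
    rw [this]
    exact Set.isClosed_centralizer _
  have hS0A : ∀ s ∈ S0, s ∈ A := by
    intro s hs t ht
    exact (ht s hs).symm
  have hTA : T ∈ A := hS0A T (Or.inl rfl)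
  have hUA : ∀ x, U x ∈ A := fun x => hS0A _ (Or.inr ⟨x, rfl⟩)
  let a : A := ⟨T, hTA⟩ * (1 - ⟨U g, hUA g⟩)
  have ha : (a : E →L[ℂ] E) = T * (1 - U g) := rfl
  have ha0 : a ≠ 0 := by
    intro h
    apply hg
    rw [← ha, h]; rfl
  have hstarU : ∀ x, star (U x) = U x⁻¹ := star_unitary_rep U hmul h1 hiso
  have hcommU : ∀ S : E →L[ℂ] E, (∀ x, Commute S (U x)) → ∀ x, Commute (star S) (U x) := by
    intro S hS x
    have := (hS x⁻¹).star_star
    rw [hstarU, inv_inv] at this
    exact this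
  have haU : ∀ x, Commute (a : E →L[ℂ] E) (U x) := by
    intro x
    rw [ha]
    refine Commute.mul_left (hTU x) ?_
    refine (Commute.one_left _).sub_left ?_
    exact hS0 (U g) (Or.inr ⟨g, rfl⟩) (U x) (Or.inr ⟨x, rfl⟩)
  have hsaU : ∀ x, Commute (star (a : E →L[ℂ] E)) (U x) := hcommU _ haU
  have hnorm : IsStarNormal (a : E →L[ℂ] E) := by
    constructor
    have c1 : Commute (star (a : E →L[ℂ] E)) T := (hT _ hsaU).symm
    have c2 : Commute (star (a : E →L[ℂ] E)) (1 - U g) := (Commute.one_right _).sub_right (hsaU g)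
    have := c1.mul_right c2
    rw [← ha] at this
    exact this
  obtain ⟨φ, hφa, hφn⟩ := exists_algHom_ne_zero A hAclosed hAcomm a ha0 hnorm
  have hφT : φ ⟨T, hTA⟩ ≠ 0 := by
    intro h
    apply hφa
    rw [show a = ⟨T, hTA⟩ * (1 - ⟨U g, hUA g⟩) from rfl, map_mul, h, zero_mul]
  have hφg : φ ⟨U g, hUA g⟩ ≠ 1 := by
    intro h
    apply hφa
    rw [show a = ⟨T, hTA⟩ * (1 - ⟨U g, hUA g⟩) from rfl, map_mul, map_sub, map_one, h, sub_self,
      mul_zero]
  let ψ : K → ℂ := fun x => φ ⟨U x, hUA x⟩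
  have hψmul : ∀ x y, ψ (x * y) = ψ x * ψ y := by
    intro x y
    simp only [ψ]
    rw [← map_mul]
    congr 1
    exact Subtype.ext (hmul x y)
  have hψ1 : ψ 1 = 1 := by
    simp only [ψ]
    rw [← map_one φ]
    congr 1
    exact Subtype.ext h1
  have hψle : ∀ x, ‖ψ x‖ ≤ 1 := by
    intro x
    refine (hφn _).trans ?_
    change ‖U x‖ ≤ 1
    refine ContinuousLinearMap.opNorm_le_bound _ zero_le_one fun v => ?_
    rw [hiso, one_mul]
  have hψnorm : ∀ x, ‖ψ x‖ = 1 := by
    intro x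
    have h2 : ‖ψ x‖ * ‖ψ x⁻¹‖ = 1 := by
      rw [← norm_mul, ← hψmul, mul_inv_cancel, hψ1, norm_one]
    have h3 := hψle x
    have h4 := hψle x⁻¹
    nlinarith [norm_nonneg (ψ x), norm_nonneg (ψ x⁻¹)]
  have hψcont : Continuous ψ := by
    have h2 : ∀ x, ψ x = φ (⟨U x, hUA x⟩ * ⟨T, hTA⟩) / φ ⟨T, hTA⟩ := by
      intro x
      rw [map_mul, mul_div_cancel_right₀ _ hφT]
    have h3 : Continuous fun x => φ (⟨U x, hUA x⟩ * ⟨T, hTA⟩) := by
      have hφc : Continuous φ :=
        (LinearMap.mkContinuous (φ : A →ₗ[ℂ] ℂ) 1 (fun b => by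
          rw [one_mul]; exact hφn b)).continuous
      refine hφc.comp ?_
      exact Continuous.subtype_mk hcont _
    rw [show ψ = fun x => φ (⟨U x, hUA x⟩ * ⟨T, hTA⟩) / φ ⟨T, hTA⟩ from funext h2]
    exact h3.div_const _
  let χ : K →* Circle :=
    { toFun := fun x => ⟨ψ x, mem_sphere_zero_iff_norm.2 (hψnorm x)⟩
      map_one' := Circle.ext hψ1
      map_mul' := fun x y => Circle.ext (hψmul x y) }
  refine ⟨χ, Continuous.subtype_mk hψcont _, ?_⟩
  intro h
  apply hφg
  have := congrArg (fun z : Circle => (z : ℂ)) h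
  exact this

end

section

variable {K : Type*} [CommGroup K] [TopologicalSpace K] [IsTopologicalGroup K] [CompactSpace K]
  [T2Space K] [MeasurableSpace K] [BorelSpace K] (μ : Measure K) [μ.IsMulLeftInvariant]
  [IsFiniteMeasure μ] [μ.Regular]

/-- translation operators on `L²` -/
noncomputable def tr (x : K) : Lp ℂ 2 μ →L[ℂ] Lp ℂ 2 μ :=
  LinearMap.mkContinuous
    { toFun := fun f => DomMulAct.mk x • f
      map_add' := fun f g => smul_add _ f g
      map_smul' := fun c f => smul_comm _ c f } 1 (fun f => by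
        rw [one_mul]
        exact (DomMulAct.norm_smul_Lp (DomMulAct.mk x) f).le)

theorem tr_apply (x : K) (f : Lp ℂ 2 μ) : tr μ x f = DomMulAct.mk x • f := rfl

theorem tr_norm (x : K) (f : Lp ℂ 2 μ) : ‖tr μ x f‖ = ‖f‖ := DomMulAct.norm_smul_Lp _ f

theorem tr_one : tr μ (1 : K) = 1 := by
  ext1 f
  rw [tr_apply]
  simp

theorem tr_mul (x y : K) : tr μ (x * y) = tr μ x * tr μ y := by
  ext1 f
  rw [mul_comm x y]
  change DomMulAct.mk (y * x) • f = DomMulAct.mk x • (DomMulAct.mk y • f)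
  rw [smul_smul]
  rfl

theorem tr_continuous (f : Lp ℂ 2 μ) : Continuous fun x : K => tr μ x f := by
  have : Fact ((2 : ENNReal) ≠ ⊤) := ⟨ENNReal.ofNat_ne_top⟩
  simp only [tr_apply]
  exact (DomMulAct.continuous_mk).smul continuous_const

theorem integrable_tr (F : C(K, ℂ)) (h : Lp ℂ 2 μ) : Integrable (fun y => F y • tr μ y h) μ := by
  apply Continuous.integrable_of_hasCompactSupport
  · exact F.continuous.smul (tr_continuous μ h)
  · exact HasCompactSupport.of_compactSpace _

/-- convolution operator -/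
noncomputable def cv (F : C(K, ℂ)) : Lp ℂ 2 μ →L[ℂ] Lp ℂ 2 μ :=
  LinearMap.mkContinuous
    { toFun := fun h => ∫ y, F y • tr μ y h ∂μ
      map_add' := fun h k => by
        simp only [map_add, smul_add]
        exact integral_add (integrable_tr μ F h) (integrable_tr μ F k)
      map_smul' := fun c h => by
        simp only [map_smul, RingHom.id_apply]
        rw [← integral_smul]
        congr 1
        ext1 y
        rw [smul_comm] } (‖F‖ * μ.real Set.univ) (fun h => by
        have h1 : ∀ y, ‖F y • tr μ y h‖ ≤ ‖F‖ * ‖h‖ := by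
          intro y
          rw [norm_smul, tr_norm]
          exact mul_le_mul_of_nonneg_right (F.norm_coe_le_norm y) (norm_nonneg _)
        have h2 := norm_integral_le_of_norm_le_const (μ := μ) (Filter.Eventually.of_forall h1)
        refine h2.trans (le_of_eq ?_)
        ring)

theorem cv_apply (F : C(K, ℂ)) (h : Lp ℂ 2 μ) : cv μ F h = ∫ y, F y • tr μ y h ∂μ := rfl

theorem cv_norm_le (F : C(K, ℂ)) : ‖cv μ F‖ ≤ ‖F‖ * μ.real Set.univ :=
  LinearMap.mkContinuous_norm_le _ (by positivity) _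

theorem cv_commute (F : C(K, ℂ)) (S : Lp ℂ 2 μ →L[ℂ] Lp ℂ 2 μ)
    (hS : ∀ x, Commute S (tr μ x)) : Commute (cv μ F) S := by
  change cv μ F * S = S * cv μ F
  ext1 h
  change cv μ F (S h) = S (cv μ F h)
  rw [cv_apply, cv_apply, ← S.integral_comp_comm (integrable_tr μ F h)]
  congr 1
  ext1 y
  have : tr μ y (S h) = S (tr μ y h) := by
    have := congrArg (fun L : Lp ℂ 2 μ →L[ℂ] Lp ℂ 2 μ => L h) (hS y).eq
    exact this.symm
  rw [this, map_smul]

theorem tr_commute (x y : K) : Commute (tr μ x) (tr μ y) := by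
  change tr μ x * tr μ y = tr μ y * tr μ x
  rw [← tr_mul, ← tr_mul, mul_comm]

/-- translate of a continuous function -/
noncomputable def tl (F : C(K, ℂ)) : C(K, C(K, ℂ)) :=
  ContinuousMap.curry ⟨fun p : K × K => F (p.1⁻¹ * p.2), by fun_prop⟩

theorem tr_mul_cv (F : C(K, ℂ)) (x : K) : tr μ x * cv μ F = cv μ (tl F x) := by
  ext1 h
  change tr μ x (cv μ F h) = cv μ (tl F x) h
  rw [cv_apply, cv_apply, ← (tr μ x).integral_comp_comm (integrable_tr μ F h)]
  rw [← integral_mul_left_eq_self (fun y => (tl F x) y • tr μ y h) x]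
  congr 1
  ext1 y
  have h1 : (tl F x) (x * y) = F y := by
    change F (x⁻¹ * (x * y)) = F y
    rw [inv_mul_cancel_left]
  rw [h1, map_smul, tr_mul]
  rfl

theorem cv_sub (F G : C(K, ℂ)) : cv μ F - cv μ G = cv μ (F - G) := by
  ext1 h
  change cv μ F h - cv μ G h = cv μ (F - G) h
  rw [cv_apply, cv_apply, cv_apply, ← integral_sub (integrable_tr μ F h) (integrable_tr μ G h)]
  congr 1
  ext1 y
  rw [ContinuousMap.sub_apply, sub_smul]

theorem continuous_tr_mul_cv (F : C(K, ℂ)) : Continuous fun x => tr μ x * cv μ F := by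
  simp only [tr_mul_cv]
  have h1 : LipschitzWith (Real.toNNReal (μ.real Set.univ)) (cv μ : C(K, ℂ) → _) := by
    apply LipschitzWith.of_dist_le_mul
    intro F G
    rw [dist_eq_norm, dist_eq_norm, cv_sub, Real.coe_toNNReal _ (by positivity), mul_comm]
    exact cv_norm_le μ (F - G)
  exact h1.continuous.comp (tl F).continuous

end

end PWaux

open PWaux

theorem exists_char_compact (K : Type*) [CommGroup K] [TopologicalSpace K] [IsTopologicalGroup K]
    [CompactSpace K] [T2Space K] (g : K) (hg : g ≠ 1) :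
    ∃ χ : K →* Circle, Continuous χ ∧ χ g ≠ 1 := by
  let _ : MeasurableSpace K := borel K
  have : BorelSpace K := ⟨rfl⟩
  let μ : Measure K := Measure.haar
  obtain ⟨h0, h01⟩ : ∃ h0 : C(K, ℂ), h0 1 ≠ h0 g := by
    obtain ⟨f, hf0, hf1, -⟩ := exists_continuous_zero_one_of_isClosed
      (isClosed_singleton (x := (1 : K))) (isClosed_singleton (x := g))
      (Set.disjoint_singleton.2 hg.symm)
    refine ⟨⟨fun x => (f x : ℂ), by fun_prop⟩, ?_⟩
    have h2 : f 1 = 0 := hf0 rfl
    have h3 : f g = 1 := hf1 rfl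
    simp [h2, h3]
  have hmem : MemLp (h0 : K → ℂ) 2 μ :=
    h0.continuous.memLp_of_hasCompactSupport (HasCompactSupport.of_compactSpace _)
  let v : Lp ℂ 2 μ := hmem.toLp h0
  let u : Lp ℂ 2 μ := v - tr μ g v
  have hu : u ≠ 0 := by
    intro h
    have h2 : tr μ g v = v := (sub_eq_zero.1 h).symm
    rw [tr_apply, DomMulAct.mk_smul_toLp, MemLp.toLp_eq_toLp_iff] at h2
    have h3 : (fun y : K => h0 (g • y)) = (h0 : K → ℂ) := by
      refine (Continuous.ae_eq_iff_eq μ ?_ h0.continuous).1 h2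
      exact h0.continuous.comp (continuous_const_smul g)
    have h4 := congrFun h3 1
    simp only [smul_eq_mul, mul_one] at h4
    exact h01 h4.symm
  let F : C(K, ℂ) := ⟨fun y => conj (inner ℂ u (tr μ y u)),
    Complex.continuous_conj.comp (continuous_const.inner (tr_continuous μ u))⟩
  have hF : ∀ y, F y = conj (inner ℂ u (tr μ y u)) := fun y => rfl
  have hTu : cv μ F u ≠ 0 := by
    intro h
    have h2 : inner ℂ u (cv μ F u) = ((∫ y, ‖inner ℂ u (tr μ y u)‖ ^ 2 ∂μ : ℝ) : ℂ) := by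
      have e1 : inner ℂ u (cv μ F u) = (innerSL ℂ u) (cv μ F u) := rfl
      rw [e1, cv_apply, ← ContinuousLinearMap.integral_comp_comm _ (integrable_tr μ F u),
        ← integral_complex_ofReal]
      congr 1
      ext1 y
      rw [map_smul, hF, smul_eq_mul]
      have e2 : (innerSL ℂ u) (tr μ y u) = inner ℂ u (tr μ y u) := rfl
      rw [e2, mul_comm, Complex.mul_conj, Complex.normSq_eq_norm_sq]
    rw [h, inner_zero_right] at h2
    have h3 : 0 < ∫ y, ‖inner ℂ u (tr μ y u)‖ ^ 2 ∂μ := by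
      have hc : Continuous fun y : K => ‖inner ℂ u (tr μ y u)‖ ^ 2 :=
        ((continuous_const.inner (tr_continuous μ u)).norm).pow 2
      refine hc.integral_pos_of_hasCompactSupport_nonneg_nonzero
        (HasCompactSupport.of_compactSpace _) (fun y => by positivity) (x := 1) ?_
      have : tr μ 1 u = u := by rw [tr_one]; rfl
      simp only [this]
      have h5 : inner ℂ u u ≠ (0 : ℂ) := by
        rw [Ne, inner_self_eq_zero]; exact hu
      exact pow_ne_zero 2 (norm_ne_zero_iff.2 h5)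
    have h4 : (∫ y, ‖inner ℂ u (tr μ y u)‖ ^ 2 ∂μ : ℝ) = 0 := by exact_mod_cast h2.symm
    linarith
  refine exists_char_of_operator (tr μ) (tr_mul μ) (tr_one μ) (tr_norm μ) (cv μ F)
    (fun x => cv_commute μ F (tr μ x) (fun y => tr_commute μ x y)) (fun S hS => cv_commute μ F S hS)
    (continuous_tr_mul_cv μ F) g ?_
  intro h
  apply hTu
  have h5 : (cv μ F * (1 - tr μ g)) v = 0 := by rw [h]; rfl
  have h6 : (cv μ F * (1 - tr μ g)) v = cv μ F u := rfl
  rw [← h6]; exact h5

/-- Peter-Weyl for compact abelian groups: continuous characters separate points. -/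
theorem exists_char_ne_one {K : Type u} [AddCommGroup K] [TopologicalSpace K]
    [IsTopologicalAddGroup K] [CompactSpace K] [T2Space K] {x : K} (hx : x ≠ 0) :
    ∃ χ : AddChar K Circle, Continuous χ ∧ χ x ≠ 1 := by
  have : CompactSpace (Multiplicative K) := ‹CompactSpace K›
  have : T2Space (Multiplicative K) := ‹T2Space K›
  obtain ⟨χ, hχ, hχg⟩ := exists_char_compact (Multiplicative K) (Multiplicative.ofAdd x)
    (fun h => hx (Multiplicative.ofAdd.injective h))
  refine ⟨⟨fun x => χ (Multiplicative.ofAdd x), ?_, ?_⟩, ?_, hχg⟩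
  · exact χ.map_one
  · intro a b
    exact χ.map_mul _ _
  · exact hχ.comp continuous_ofAdd

end Pool.Agent.Kur
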