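import Mathlib
import Pool.Agent.Kur.OB
import Pool.Agent.Kur.PW

/-!
Kakutani's lower bound `2 ^ #(CChar K) ≤ #K` for compact abelian groups, and `𝔠 ≤ #K` for infinite
compact abelian groups.
-/

open Cardinal Topology Set

namespace Pool.Agent.Kur

universe u

lemma kak_map_sub {K : Type u} [AddCommGroup K] (χ : AddChar K Circle) {x y : K}
    (h : χ (x - y) ≠ 1) : χ x ≠ χ y := by
  intro he
  apply h
  rw [AddChar.map_sub_eq_div, he, div_self']

/-- In a compact abelian group a family of characters separating points controls the weight. -/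
theorem card_cchar_le_of_separating {K : Type u} [AddCommGroup K] [TopologicalSpace K]
    [IsTopologicalAddGroup K] [CompactSpace K] [T2Space K] (A : Set (CChar K))
    (hA : ∀ x : K, (∀ χ ∈ A, χ.1 x = 1) → x = 0) : #(CChar K) ≤ max #A ℵ₀ := by
  refine (card_cchar_le precompact_of_compact).trans (max_le ?_ (le_max_right _ _))
  apply weight_le_of_family (ι := A) (Y := Circle) (fun χ x => χ.1.1 x) (fun χ => χ.1.2)
  intro x U hU
  classical
  have hcomp : IsCompact (interior U)ᶜ := isOpen_interior.isClosed_compl.isCompact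
  have hch : ∀ y : ((interior U)ᶜ : Set K), ∃ χ : A, ∃ V W : Set Circle, IsOpen V ∧ IsOpen W ∧
      χ.1.1 x ∈ V ∧ χ.1.1 (y : K) ∈ W ∧ Disjoint V W := by
    rintro ⟨y, hy⟩
    have hne : y - x ≠ 0 := by
      intro h0
      rw [sub_eq_zero] at h0
      apply hy
      rw [h0]
      exact mem_interior_iff_mem_nhds.mpr hU
    have : ∃ χ ∈ A, χ.1 (y - x) ≠ 1 := by
      by_contra hcon
      push Not at hcon
      exact hne (hA _ hcon)
    obtain ⟨χ, hχA, hχ⟩ := this
    have hne' : χ.1 x ≠ χ.1 y := (kak_map_sub χ.1 hχ).symm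
    obtain ⟨V, W, hV, hW, hxV, hyW, hd⟩ := t2_separation hne'
    exact ⟨⟨χ, hχA⟩, V, W, hV, hW, hxV, hyW, hd⟩
  choose χ V W hV hW hxV hyW hd using hch
  obtain ⟨t, hcov⟩ := hcomp.elim_nhds_subcover' (fun y hy => {z | (χ ⟨y, hy⟩).1.1 z ∈ W ⟨y, hy⟩})
    (fun y hy => ((hW ⟨y, hy⟩).preimage (χ ⟨y, hy⟩).1.2).mem_nhds (hyW ⟨y, hy⟩))
  refine ⟨t.image χ, fun i => ⋂ y ∈ t.filter (fun y => χ y = i), V y, ?_, ?_⟩
  · intro i _
    refine ⟨isOpen_biInter_finset fun y _ => hV y, ?_⟩
    rw [Set.mem_iInter₂]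
    intro y hy
    have := (Finset.mem_filter.mp hy).2
    rw [← this]
    exact hxV y
  · intro z hz
    by_contra hzU
    have hz' : z ∈ (interior U)ᶜ := fun h => hzU (interior_subset h)
    obtain ⟨y, hyt, hzy⟩ := Set.mem_iUnion₂.mp (hcov hz')
    have h1 := hz (χ y) (Finset.mem_image_of_mem _ hyt)
    rw [Set.mem_iInter₂] at h1
    have h2 := h1 y (Finset.mem_filter.mpr ⟨hyt, rfl⟩)
    exact Set.disjoint_left.mp (hd y) h2 hzy

/-- condition (*) of the Zorn argument -/
def KakGood {K : Type u} [AddCommGroup K] [TopologicalSpace K]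
    (p : Set (CChar K) × ((CChar K → Bool) → K)) : Prop :=
  ∀ f g : CChar K → Bool, (∃ a ∈ p.1, f a ≠ g a) → ∃ b ∈ p.1, b.1 (p.2 f) ≠ b.1 (p.2 g)

/-- Kakutani's theorem, lower bound, uncountable case. -/
theorem two_pow_card_cchar_le {K : Type u} [AddCommGroup K] [TopologicalSpace K]
    [IsTopologicalAddGroup K] [CompactSpace K] [T2Space K] (h : ℵ₀ < #(CChar K)) :
    (2 : Cardinal.{u}) ^ #(CChar K) ≤ #K := by
  classical
  let P := {p : Set (CChar K) × ((CChar K → Bool) → K) // KakGood p}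
  let r : P → P → Prop := fun p q => p.1.1 ⊆ q.1.1 ∧ ∀ f, ∀ a ∈ p.1.1, a.1 (q.1.2 f) = a.1 (p.1.2 f)
  have htrans : ∀ {a b c : P}, r a b → r b c → r a c := by
    intro a b c hab hbc
    exact ⟨hab.1.trans hbc.1, fun f x hx => (hbc.2 f x (hab.1 hx)).trans (hab.2 f x hx)⟩
  have : Nonempty P := ⟨⟨(∅, fun _ => 0), by
    rintro f g ⟨a, ha, _⟩; exact absurd ha (Set.notMem_empty a)⟩⟩
  obtain ⟨m, hm⟩ := exists_maximal_of_nonempty_chains_bounded (r := r) (by
    intro c hc hne
    have hex : ∀ f : CChar K → Bool, ∃ y : K, ∀ p ∈ c, ∀ a ∈ p.1.1, a.1 y = a.1 (p.1.2 f) := by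
      intro f
      have : Nonempty c := hne.to_subtype
      let S : c → Set K := fun p => {y | ∀ a ∈ p.1.1.1, a.1 y = a.1 (p.1.1.2 f)}
      have hclosed : ∀ p, IsClosed (S p) := by
        intro p
        have : S p = ⋂ a ∈ p.1.1.1, {y | a.1 y = a.1 (p.1.1.2 f)} := by
          ext y; simp [S]
        rw [this]
        exact isClosed_biInter fun a _ => isClosed_eq a.2 continuous_const
      have hmono : ∀ p q : c, r p.1 q.1 → S q ⊆ S p := by
        intro p q hpq y hy a ha
        rw [hy a (hpq.1 ha), hpq.2 f a ha]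
      have hdir : Directed (· ⊇ ·) S := by
        intro p q
        by_cases hpq : p = q
        · exact ⟨p, subset_rfl, by rw [hpq]⟩
        · have hne' : p.1 ≠ q.1 := fun h => hpq (Subtype.ext h)
          rcases hc p.2 q.2 hne' with h1 | h1
          · exact ⟨q, hmono p q h1, subset_rfl⟩
          · exact ⟨p, subset_rfl, hmono q p h1⟩
      have hnon : ∀ p, (S p).Nonempty := fun p => ⟨p.1.1.2 f, fun a _ => rfl⟩
      obtain ⟨y, hy⟩ := IsCompact.nonempty_iInter_of_directed_nonempty_isCompact_isClosed S hdir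
        hnon (fun p => (hclosed p).isCompact) hclosed
      rw [Set.mem_iInter] at hy
      exact ⟨y, fun p hp a ha => hy ⟨p, hp⟩ a ha⟩
    choose Φ hΦ using hex
    refine ⟨⟨(⋃ p ∈ c, p.1.1, Φ), ?_⟩, ?_⟩
    · rintro f g ⟨a, ha, hfg⟩
      obtain ⟨p, hp, hap⟩ := Set.mem_iUnion₂.mp ha
      obtain ⟨b, hb, hbfg⟩ := p.2 f g ⟨a, hap, hfg⟩
      refine ⟨b, Set.mem_iUnion₂.mpr ⟨p, hp, hb⟩, ?_⟩
      simp only [hΦ f p hp b hb, hΦ g p hp b hb]
      exact hbfg
    · intro p hp
      exact ⟨fun a ha => Set.mem_iUnion₂.mpr ⟨p, hp, ha⟩, fun f a ha => hΦ f p hp a ha⟩)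
    htrans
  obtain ⟨⟨A, Φ⟩, hgood⟩ := m
  have hsep : ∀ x : K, (∀ χ ∈ A, χ.1 x = 1) → x = 0 := by
    intro x hx
    by_contra hx0
    obtain ⟨χ, hχc, hχ⟩ := exists_char_ne_one hx0
    let y : CChar K := ⟨χ, hχc⟩
    let st : Setoid K :=
      { r := fun z z' => ∀ a ∈ A, a.1 z = a.1 z'
        iseqv := ⟨fun z a _ => rfl, fun h a ha => (h a ha).symm,
          fun h h' a ha => (h a ha).trans (h' a ha)⟩ }
    let ρ : K → K := fun z => (Quotient.mk st z).out
    have hρ1 : ∀ z, ∀ a ∈ A, a.1 (ρ z) = a.1 z := fun z => Quotient.exact (s := st) (Quotient.out_eq _)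
    have hρ2 : ∀ z z', (∀ a ∈ A, a.1 z = a.1 z') → ρ z = ρ z' := by
      intro z z' hzz
      have : Quotient.mk st z = Quotient.mk st z' := Quotient.sound hzz
      simp only [ρ, this]
    let Φ' : (CChar K → Bool) → K := fun f => ρ (Φ f) + (if f y then x else 0)
    have hΦ' : ∀ f, ∀ a ∈ A, a.1 (Φ' f) = a.1 (Φ f) := by
      intro f a ha
      have h1 : a.1 (if f y then x else 0) = 1 := by
        split_ifs
        · exact hx a ha
        · exact a.1.map_zero_eq_one
      simp only [Φ', AddChar.map_add_eq_mul, h1, mul_one, hρ1 _ a ha]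
    have hgood' : KakGood (insert y A, Φ') := by
      rintro f g ⟨a, ha, hfg⟩
      by_cases hb : ∃ b ∈ A, b.1 (Φ f) ≠ b.1 (Φ g)
      · obtain ⟨b, hbA, hb⟩ := hb
        refine ⟨b, Set.mem_insert_of_mem _ hbA, ?_⟩
        simp only [hΦ' f b hbA, hΦ' g b hbA]
        exact hb
      · have hyfg : f y ≠ g y := by
          rcases Set.mem_insert_iff.mp ha with h1 | h1
          · rw [← h1]; exact hfg
          · exact absurd (hgood f g ⟨a, h1, hfg⟩) hb
        push Not at hb
        have hρ := hρ2 _ _ hb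
        refine ⟨y, Set.mem_insert _ _, ?_⟩
        have hyx : y.1 x ≠ 1 := hχ
        have h0 : y.1 (0 : K) = 1 := y.1.map_zero_eq_one
        simp only [Φ', AddChar.map_add_eq_mul, hρ]
        intro he
        have he' := mul_left_cancel he
        by_cases hf : f y = true <;> by_cases hg : g y = true
        · exact hyfg (hf.trans hg.symm)
        · rw [if_pos hf, if_neg hg, h0] at he'; exact hyx he'
        · rw [if_neg hf, if_pos hg, h0] at he'; exact hyx he'.symm
        · apply hyfg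
          rw [Bool.not_eq_true] at hf hg
          rw [hf, hg]
    have hle := hm ⟨(insert y A, Φ'), hgood'⟩
      ⟨Set.subset_insert _ _, fun f a ha => hΦ' f a ha⟩
    have hyA : y ∈ A := hle.1 (Set.mem_insert _ _)
    exact hχ (hx y hyA)
  have hcard : #(CChar K) ≤ #A := by
    have h1 := card_cchar_le_of_separating A hsep
    rcases le_max_iff.mp h1 with h2 | h2
    · exact h2
    · exact absurd h2 (not_le.mpr h)
  have hinj : #(A → Bool) ≤ #K := by
    refine Cardinal.mk_le_of_injective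
      (f := fun f : A → Bool => Φ (fun a => if ha : a ∈ A then f ⟨a, ha⟩ else false)) ?_
    intro f g hfg
    by_contra hne
    obtain ⟨a, ha⟩ := Function.ne_iff.mp hne
    obtain ⟨b, hb, hbne⟩ := hgood (fun a => if ha : a ∈ A then f ⟨a, ha⟩ else false)
      (fun a => if ha : a ∈ A then g ⟨a, ha⟩ else false) ⟨a.1, a.2, by simpa using ha⟩
    apply hbne
    simp only at hfg ⊢
    rw [hfg]
  calc (2 : Cardinal.{u}) ^ #(CChar K) ≤ (2 : Cardinal.{u}) ^ #A :=
        Cardinal.power_le_power_left two_ne_zero hcard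
    _ = #(A → Bool) := by simp
    _ ≤ #K := hinj

theorem continuum_le_card {K : Type} [AddCommGroup K] [TopologicalSpace K]
    [IsTopologicalAddGroup K] [CompactSpace K] [T2Space K] [Infinite K] : 𝔠 ≤ #K := by
  classical
  let x : ℕ → K := Infinite.natEmbedding K
  have hx : Function.Injective x := (Infinite.natEmbedding K).injective
  have hch : ∀ p : ℕ × ℕ, ∃ χ : CChar K, x p.1 ≠ x p.2 → χ.1 (x p.1) ≠ χ.1 (x p.2) := by
    intro p
    by_cases hp : x p.1 = x p.2
    · exact ⟨⟨1, continuous_const⟩, fun h => absurd hp h⟩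
    · obtain ⟨χ, hc, hχ⟩ := exists_char_ne_one (sub_ne_zero.mpr hp)
      exact ⟨⟨χ, hc⟩, fun _ => kak_map_sub χ hχ⟩
  choose χ hχ using hch
  let Ψ : K → (ℕ × ℕ → Circle) := fun z p => (χ p).1 z
  have hΨc : Continuous Ψ := continuous_pi fun p => (χ p).2
  have hΨadd : ∀ z z', Ψ (z + z') = Ψ z * Ψ z' := by
    intro z z'
    funext p
    simp [Ψ, AddChar.map_add_eq_mul]
  let C : Set (ℕ × ℕ → Circle) := Set.range Ψ
  have hCcomp : IsCompact C := isCompact_range hΨc
  have hCinf : C.Infinite := by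
    refine Set.infinite_of_injective_forall_mem (f := fun n => Ψ (x n)) ?_ (fun n => Set.mem_range_self _)
    intro m n hmn
    by_contra hne
    have h1 := congrFun hmn (m, n)
    exact hχ (m, n) (fun h => hne (hx h)) h1
  obtain ⟨x0, ⟨u0, hu0⟩, hacc⟩ := hCinf.exists_accPt_of_subset_isCompact hCcomp subset_rfl
  have hperf : Perfect C := by
    refine ⟨hCcomp.isClosed, ?_⟩
    rintro y ⟨u, rfl⟩
    rw [accPt_principal_iff_clusterPt, ← mem_closure_iff_clusterPt] at hacc ⊢
    have h1 := map_mem_closure (f := fun w => Ψ (u - u0) * w) (t := C \ {Ψ u})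
      (continuous_const.mul continuous_id) hacc (by
        rintro w ⟨⟨v, rfl⟩, hw⟩
        refine ⟨⟨u - u0 + v, hΨadd _ _⟩, ?_⟩
        intro he
        apply hw
        have h2 : Ψ (u - u0) * Ψ v = Ψ (u - u0) * Ψ u0 := by
          rw [← hΨadd (u - u0) u0, sub_add_cancel]; simpa using he
        rw [Set.mem_singleton_iff, mul_left_cancel h2]
        exact hu0)
    have h3 : Ψ (u - u0) * x0 = Ψ u := by rw [← hu0, ← hΨadd, sub_add_cancel]
    simpa only [h3] using h1
  let _ := TopologicalSpace.upgradeIsCompletelyMetrizable (ℕ × ℕ → Circle)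
  obtain ⟨f, hf, -, hfi⟩ := hperf.exists_nat_bool_injection ⟨Ψ 0, 0, rfl⟩
  have h1 : #(ℕ → Bool) ≤ #C :=
    Cardinal.mk_le_of_injective (f := fun b => (⟨f b, hf ⟨b, rfl⟩⟩ : C)) fun b b' hbb => hfi (by
      simpa using hbb)
  have h2 : #C ≤ #K := Cardinal.mk_range_le
  calc 𝔠 = #(ℕ → Bool) := by simp
    _ ≤ #C := h1
    _ ≤ #K := h2

end Pool.Agent.Kur
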