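import Mathlib
import Pool.Agent.Kur.Defs
import Pool.Agent.Kur.OB
import Pool.Agent.Kur.PW

/-! Precompact abelian groups have enough continuous characters; weight versus number of
characters. -/

open Cardinal Topology Set

namespace Pool.Agent.Kur

universe u

theorem continuous_norm_char {G : Type u} [AddCommGroup G] [TopologicalSpace G] (χ : CChar G) :
    Continuous fun x : G => ‖((χ.1 x : Circle) : ℂ) - 1‖ :=
  ((continuous_subtype_val.comp χ.2).sub continuous_const).norm

theorem exists_char_far {K : Type u} [AddCommGroup K] [TopologicalSpace K]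
    [IsTopologicalAddGroup K] [CompactSpace K] [T2Space K] {x : K} (hx : x ≠ 0) :
    ∃ χ : CChar K, 1 < ‖((χ.1 x : Circle) : ℂ) - 1‖ := by
  obtain ⟨χ, hχ, hχx⟩ := exists_char_ne_one hx
  by_contra hcon
  push Not at hcon
  apply hχx
  apply circle_eq_one_of_forall
  intro n
  have hc : Continuous (χ ^ n : AddChar K Circle) := by
    have : ((χ ^ n : AddChar K Circle) : K → Circle) = fun y => (χ y) ^ n := by
      ext y; simp
    rw [this]
    exact hχ.pow n
  have := hcon ⟨χ ^ n, hc⟩
  simpa using this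

theorem exists_finset_cchar_compact {K : Type u} [AddCommGroup K] [TopologicalSpace K]
    [IsTopologicalAddGroup K] [CompactSpace K] [T2Space K] {U : Set K} (hU : U ∈ 𝓝 (0 : K)) :
    ∃ s : Finset (CChar K), ∀ x : K, (∀ χ ∈ s, ‖((χ.1 x : Circle) : ℂ) - 1‖ < 1) → x ∈ U := by
  classical
  have hcomp : IsCompact ((interior U)ᶜ) := isOpen_interior.isClosed_compl.isCompact
  have hcov : (interior U)ᶜ ⊆ ⋃ χ : CChar K, {x : K | 1 < ‖((χ.1 x : Circle) : ℂ) - 1‖} := by
    intro x hx
    have hx0 : x ≠ 0 := by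
      rintro rfl
      exact hx (mem_interior_iff_mem_nhds.2 hU)
    obtain ⟨χ, hχ⟩ := exists_char_far hx0
    exact Set.mem_iUnion.2 ⟨χ, hχ⟩
  obtain ⟨s, hs⟩ := hcomp.elim_finite_subcover _
    (fun χ => isOpen_lt continuous_const (continuous_norm_char χ)) hcov
  refine ⟨s, fun x hx => ?_⟩
  by_contra hxU
  have hx' : x ∈ (interior U)ᶜ := fun h => hxU (interior_subset h)
  obtain ⟨χ, hχs, hχ⟩ := Set.mem_iUnion₂.1 (hs hx')
  have := hx χ hχs
  have h2 : 1 < ‖((χ.1 x : Circle) : ℂ) - 1‖ := hχ
  linarith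

theorem exists_finset_cchar {G : Type u} [AddCommGroup G] [TopologicalSpace G]
    [IsTopologicalAddGroup G] [T2Space G] (hG : Precompact G) {U : Set G} (hU : U ∈ 𝓝 (0 : G)) :
    ∃ s : Finset (CChar G), ∀ x : G, (∀ χ ∈ s, ‖((χ.1 x : Circle) : ℂ) - 1‖ < 1) → x ∈ U := by
  classical
  letI : UniformSpace G := IsTopologicalAddGroup.rightUniformSpace G
  haveI : IsUniformAddGroup G := isUniformAddGroup_of_addCommGroup
  let K := UniformSpace.Completion G
  have htb : TotallyBounded (Set.univ : Set G) := by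
    intro V hV
    rw [uniformity_eq_comap_nhds_zero, Filter.mem_comap] at hV
    obtain ⟨W, hW, hWV⟩ := hV
    have hW' : {x : G | -x ∈ W} ∈ 𝓝 (0 : G) := by
      have : Filter.Tendsto (fun x : G => -x) (𝓝 0) (𝓝 (-0)) := continuous_neg.tendsto _
      rw [neg_zero] at this
      exact this hW
    obtain ⟨t, ht, hcov⟩ := hG _ hW'
    refine ⟨t, ht, fun x _ => ?_⟩
    obtain ⟨y, hy, hxy⟩ := hcov x
    refine Set.mem_iUnion₂.2 ⟨y, hy, ?_⟩
    apply hWV
    have : -(x - y) ∈ W := hxy
    simpa using this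
  haveI hcompK : CompactSpace K := by
    refine ⟨?_⟩
    have h1 : TotallyBounded (Set.univ : Set K) := by
      have h2 := (htb.image (UniformSpace.Completion.uniformContinuous_coe G)).closure
      rw [Set.image_univ, (UniformSpace.Completion.denseRange_coe (α := G)).closure_range] at h2
      exact h2
    exact isCompact_iff_totallyBounded_isComplete.2 ⟨h1, completeSpace_iff_isComplete_univ.1 inferInstance⟩
  have hind : IsInducing ((↑) : G → K) := (UniformSpace.Completion.isUniformInducing_coe G).isInducing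
  rw [hind.nhds_eq_comap, Filter.mem_comap] at hU
  obtain ⟨U', hU', hUU⟩ := hU
  rw [UniformSpace.Completion.coe_zero] at hU'
  obtain ⟨s, hs⟩ := exists_finset_cchar_compact hU'
  have hres : ∀ χ : CChar K, Continuous (χ.1.compAddMonoidHom
      (UniformSpace.Completion.toCompl : G →+ K)) := fun χ =>
    χ.2.comp UniformSpace.Completion.continuous_toCompl
  refine ⟨s.image fun χ => ⟨_, hres χ⟩, fun x hx => hUU ?_⟩
  refine hs _ fun χ hχ => ?_
  exact hx ⟨_, hres χ⟩ (Finset.mem_image.2 ⟨χ, hχ, rfl⟩)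

theorem weight_le_card_cchar {G : Type u} [AddCommGroup G] [TopologicalSpace G]
    [IsTopologicalAddGroup G] [T2Space G] (hG : Precompact G) :
    weight G ≤ max #(CChar G) ℵ₀ := by
  refine weight_le_of_family (fun (χ : CChar G) (x : G) => χ.1 x) (fun χ => χ.2) ?_
  intro x U hU
  have hU' : {z : G | z + x ∈ U} ∈ 𝓝 (0 : G) := by
    have hc : Filter.Tendsto (fun z : G => z + x) (𝓝 0) (𝓝 (0 + x)) :=
      (continuous_id.add continuous_const).tendsto _
    rw [zero_add] at hc
    exact hc hU
  obtain ⟨s, hs⟩ := exists_finset_cchar hG hU'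
  refine ⟨s, fun χ => {w : Circle | ‖(w : ℂ) - (χ.1 x : ℂ)‖ < 1}, fun χ _ => ⟨?_, ?_⟩, ?_⟩
  · exact isOpen_lt ((continuous_subtype_val.sub continuous_const).norm) continuous_const
  · simp
  · intro y hy
    have := hs (y - x) fun χ hχ => by
      have h1 := hy χ hχ
      have h2 : χ.1 (y - x) = χ.1 y / χ.1 x := AddChar.map_sub_eq_div _ _ _
      rw [h2, circle_sub_norm]
      exact h1
    simpa using this

end Pool.Agent.Kur
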