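import Mathlib
import Pool.Agent.Kur.Defs
import Pool.Agent.Kur.OB
import Pool.Agent.Kur.OB2
import Pool.Agent.Kur.KAK

/-! From an `ω`-bounded abelian group of large weight to a family of sets with few countable
traces. -/

open Cardinal Topology Set

namespace Pool.Agent.Kur

universe u

/-- The compact subgroup generated by a countable subset of an `ω`-bounded group. -/
theorem compactSpace_closure {G : Type u} [AddCommGroup G] [TopologicalSpace G]
    [IsTopologicalAddGroup G] (hG : OmegaBounded G) {D : Set G} (hD : D.Countable) :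
    CompactSpace (AddSubgroup.closure D).topologicalClosure := by
  have hc : ((AddSubgroup.closure D : AddSubgroup G) : Set G).Countable := by
    have : Countable D := hD.to_subtype
    let φ : (D →₀ ℤ) →+ G := Finsupp.liftAddHom (fun d : D => zmultiplesHom G (d : G))
    have hle : AddSubgroup.closure D ≤ φ.range := by
      rw [AddSubgroup.closure_le]
      intro d hd
      refine ⟨Finsupp.single ⟨d, hd⟩ 1, ?_⟩
      simp [φ]
    refine Set.Countable.mono hle ?_
    exact Set.countable_range φ
  exact isCompact_iff_compactSpace.1 (hG _ hc)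

/-- An `ω`-bounded abelian group with `|G| ≤ lam < w(G)` gives a trace family. -/
theorem traceFamily_of_group {lam : Cardinal.{0}} (hcont : 𝔠 ≤ lam)
    (G : Type) [AddCommGroup G] [TopologicalSpace G] [IsTopologicalAddGroup G] [T2Space G]
    (hG : OmegaBounded G) (hc : #G ≤ lam) (hw : lam < weight G) : TraceFamily lam := by
  classical
  have hal : ℵ₀ ≤ lam := aleph0_le_continuum.trans hcont
  have hpre := precompact_of_omegaBounded hG
  have hcard : lam < #(CChar G) := by
    have := hw.trans_le (weight_le_card_cchar hpre)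
    rcases lt_max_iff.1 this with h | h
    · exact h
    · exact absurd h (not_lt.2 hal)
  -- countable base of the circle
  let C := TopologicalSpace.countableBasis Circle
  have hCb : TopologicalSpace.IsTopologicalBasis C := TopologicalSpace.isBasis_countableBasis Circle
  have hCc : Countable C := (TopologicalSpace.countable_countableBasis Circle).to_subtype
  let A : CChar G → Set (G × C) := fun χ => {p | χ.1 p.1 ∈ (p.2 : Set Circle)}
  have hAinj : Function.Injective A := by
    intro χ ψ h
    apply Subtype.ext
    ext x : 1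
    by_contra hne
    obtain ⟨u, v, hu, hv, hxu, hxv, huv⟩ := t2_separation hne
    obtain ⟨c, hcC, hxc, hcu⟩ := hCb.exists_subset_of_mem_open hxu hu
    have h1 : (x, (⟨c, hcC⟩ : C)) ∈ A χ := hxc
    rw [h] at h1
    exact Set.disjoint_left.1 huv (hcu h1) hxv
  refine ⟨G × C, Set.range A, ?_, ?_, ?_⟩
  · have h1 : #(G × C) = #G * #C := by simp
    rw [h1]
    calc #G * #C ≤ lam * ℵ₀ := mul_le_mul' hc Cardinal.mk_le_aleph0
      _ ≤ lam * lam := mul_le_mul_right hal _
      _ = lam := Cardinal.mul_eq_self hal
  · rwa [Cardinal.mk_range_eq A hAinj]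
  · intro J hJ
    let D : Set G := Prod.fst '' J
    have hD : D.Countable := hJ.image _
    let K := (AddSubgroup.closure D).topologicalClosure
    haveI : CompactSpace K := compactSpace_closure hG hD
    have hDK : D ⊆ (K : Set G) := (AddSubgroup.subset_closure).trans subset_closure
    let res : CChar G → CChar K := fun χ =>
      ⟨χ.1.compAddMonoidHom K.subtype, χ.2.comp continuous_subtype_val⟩
    -- traces are determined by restrictions
    have hle : #((fun S : Set (G × C) => S ∩ J) '' Set.range A) ≤ #(CChar K) := by
      have hfac : ∀ χ ψ : CChar G, res χ = res ψ → A χ ∩ J = A ψ ∩ J := by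
        intro χ ψ h
        ext ⟨x, c⟩
        constructor
        · rintro ⟨h1, h2⟩
          refine ⟨?_, h2⟩
          have hx : x ∈ K := hDK ⟨_, h2, rfl⟩
          have h3 : (res χ).1 ⟨x, hx⟩ = (res ψ).1 ⟨x, hx⟩ := by rw [h]
          have h4 : χ.1 x = ψ.1 x := h3
          change ψ.1 x ∈ (c : Set Circle)
          rw [← h4]; exact h1
        · rintro ⟨h1, h2⟩
          refine ⟨?_, h2⟩
          have hx : x ∈ K := hDK ⟨_, h2, rfl⟩
          have h3 : (res χ).1 ⟨x, hx⟩ = (res ψ).1 ⟨x, hx⟩ := by rw [h]
          have h4 : χ.1 x = ψ.1 x := h3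
          change χ.1 x ∈ (c : Set Circle)
          rw [h4]; exact h1
      have hmem : ∀ t : ((fun S : Set (G × C) => S ∩ J) '' Set.range A), ∃ χ : CChar G,
          A χ ∩ J = (t : Set (G × C)) := by
        rintro ⟨_, _, ⟨χ, rfl⟩, rfl⟩
        exact ⟨χ, rfl⟩
      choose ch hch using hmem
      refine Cardinal.mk_le_of_injective (f := fun t => res (ch t)) ?_
      intro t t' h
      apply Subtype.ext
      rw [← hch t, ← hch t']
      exact hfac _ _ h
    by_cases hK : ℵ₀ < #(CChar K)
    · calc (2 : Cardinal.{0}) ^ #((fun S : Set (G × C) => S ∩ J) '' Set.range A)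
          ≤ 2 ^ #(CChar K) := Cardinal.power_le_power_left two_ne_zero hle
        _ ≤ #K := two_pow_card_cchar_le hK
        _ ≤ #G := Cardinal.mk_subtype_le _
        _ ≤ lam := hc
    · calc (2 : Cardinal.{0}) ^ #((fun S : Set (G × C) => S ∩ J) '' Set.range A)
          ≤ 2 ^ (ℵ₀ : Cardinal.{0}) :=
            Cardinal.power_le_power_left two_ne_zero (hle.trans (not_lt.1 hK))
        _ = 𝔠 := two_power_aleph0
        _ ≤ lam := hcont

end Pool.Agent.Kur
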