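import Mathlib
import Pool.Agent.Kur.Defs

/-! Under CH, `TraceFamily 𝔠` is Kurepa's Hypothesis. -/

open Cardinal Topology Set

namespace Pool.Agent.Kur

theorem mk_omegaOne : #((Ordinal.omega.{0} 1).ToType) = ℵ_ 1 := by
  rw [Cardinal.mk_toType, Ordinal.card_omega]

theorem countable_Iio_omegaOne (α : (Ordinal.omega.{0} 1).ToType) : (Set.Iio α).Countable := by
  have h : #(Set.Iio α) < #((Ordinal.omega.{0} 1).ToType) := by
    apply mk_Iio_lt
    rw [mk_omegaOne, Cardinal.ord_aleph, Ordinal.type_toType]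
  rw [mk_omegaOne, Cardinal.lt_aleph_one_iff] at h
  exact Cardinal.mk_le_aleph0_iff.1 h

theorem countable_Iic_omegaOne (α : (Ordinal.omega.{0} 1).ToType) : (Set.Iic α).Countable := by
  rw [← Set.Iio_insert]
  exact (countable_Iio_omegaOne α).insert α

theorem exists_bound_omegaOne (J : Set (Ordinal.omega.{0} 1).ToType) (hJ : J.Countable) :
    ∃ α, J ⊆ Set.Iio α := by
  have hc : (⋃ j ∈ J, Set.Iic j).Countable := hJ.biUnion fun j _ => countable_Iic_omegaOne j
  have hne : (⋃ j ∈ J, Set.Iic j) ≠ Set.univ := by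
    intro h
    rw [h] at hc
    have h1 : #((Ordinal.omega.{0} 1).ToType) ≤ ℵ₀ := by
      rw [← Cardinal.mk_univ]
      exact Cardinal.mk_le_aleph0_iff.2 hc.to_subtype
    rw [mk_omegaOne] at h1
    exact absurd h1 (not_le.2 Cardinal.aleph0_lt_aleph_one)
  obtain ⟨α, hα⟩ := (Set.ne_univ_iff_exists_notMem _).1 hne
  refine ⟨α, fun j hj => ?_⟩
  by_contra h
  apply hα
  have h' : α ≤ j := not_lt.1 h
  exact Set.mem_biUnion hj h'

theorem traceFamily_continuum_iff_kurepa (hCH : (𝔠 : Cardinal.{0}) = ℵ_ 1) :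
    TraceFamily 𝔠 ↔ KurepaHypothesis := by
  constructor
  · rintro ⟨I, F, hI, hF, hJ⟩
    rw [hCH] at hI hF
    have hIe : Nonempty (I ↪ (Ordinal.omega.{0} 1).ToType) := by
      rw [← Cardinal.le_def, mk_omegaOne]
      exact hI
    obtain ⟨e⟩ := hIe
    have hinj : Function.Injective (fun A : Set I => e '' A) := Set.image_injective.2 e.injective
    refine ⟨(fun A : Set I => e '' A) '' F, ?_, ?_⟩
    · rw [Cardinal.mk_image_eq hinj]
      have : (2 : Ordinal.{0}) = Order.succ 1 := by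
        rw [Ordinal.succ_one]
      rw [this, Cardinal.aleph_succ]
      exact Order.succ_le_of_lt hF
    · intro α
      have hc : (e ⁻¹' (Set.Iio α)).Countable := (countable_Iio_omegaOne α).preimage e.injective
      have h1 := hJ _ hc
      rw [hCH] at h1
      have h2 : #((fun A : Set I => A ∩ (e ⁻¹' (Set.Iio α))) '' F) ≤ ℵ₀ := by
        rw [← Cardinal.lt_aleph_one_iff]
        by_contra hcon
        have h3 : (2 : Cardinal.{0}) ^ (ℵ_ 1) ≤ ℵ_ 1 :=
          (Cardinal.power_le_power_left two_ne_zero (not_lt.1 hcon)).trans h1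
        exact absurd (Cardinal.cantor (ℵ_ 1)) (not_lt.2 h3)
      have h4 : ((fun A : Set I => A ∩ (e ⁻¹' (Set.Iio α))) '' F).Countable :=
        Set.countable_coe_iff.1 (Cardinal.mk_le_aleph0_iff.1 h2)
      have h5 : (fun A : Set (Ordinal.omega.{0} 1).ToType => A ∩ Set.Iio α) ''
          ((fun A : Set I => e '' A) '' F) ⊆
          (fun A : Set I => e '' A) '' ((fun A : Set I => A ∩ (e ⁻¹' (Set.Iio α))) '' F) := by
        rintro _ ⟨_, ⟨A, hA, rfl⟩, rfl⟩
        refine ⟨A ∩ e ⁻¹' Set.Iio α, ⟨A, hA, rfl⟩, ?_⟩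
        change e '' (A ∩ e ⁻¹' Set.Iio α) = e '' A ∩ Set.Iio α
        rw [Set.image_inter_preimage]
      exact (h4.image _).mono h5
  · rintro ⟨F, hF, hα⟩
    refine ⟨(Ordinal.omega.{0} 1).ToType, F, ?_, ?_, ?_⟩
    · rw [mk_omegaOne, hCH]
    · rw [hCH]
      refine lt_of_lt_of_le ?_ hF
      exact Cardinal.aleph_lt_aleph.2 (by norm_num)
    · intro J hJ
      obtain ⟨α, hJα⟩ := exists_bound_omegaOne J hJ
      have h1 : (fun A : Set (Ordinal.omega.{0} 1).ToType => A ∩ J) '' F ⊆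
          (fun B => B ∩ J) '' ((fun A : Set (Ordinal.omega.{0} 1).ToType => A ∩ Set.Iio α) '' F) := by
        rintro _ ⟨A, hA, rfl⟩
        refine ⟨A ∩ Set.Iio α, ⟨A, hA, rfl⟩, ?_⟩
        change A ∩ Set.Iio α ∩ J = A ∩ J
        rw [Set.inter_assoc, Set.inter_eq_self_of_subset_right hJα]
      have h2 : ((fun A : Set (Ordinal.omega.{0} 1).ToType => A ∩ J) '' F).Countable :=
        ((hα α).image _).mono h1
      calc (2 : Cardinal.{0}) ^ #((fun A : Set (Ordinal.omega.{0} 1).ToType => A ∩ J) '' F)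
          ≤ 2 ^ (ℵ₀ : Cardinal.{0}) :=
            Cardinal.power_le_power_left two_ne_zero (Cardinal.mk_le_aleph0_iff.2 h2.to_subtype)
        _ = 𝔠 := two_power_aleph0

end Pool.Agent.Kur
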