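import Mathlib
import Pool.Agent.Kur.Defs

/-!
The groups `TG F` of functions on a family `F` of subsets of `I` that depend only on the trace on a
countable set.
-/

open Cardinal Topology Set

namespace Pool.Agent.Kur

/-- functions on `F` with values in `ZMod 2` that depend only on the trace on a countable set. -/
def TG {I : Type} (F : Set (Set I)) : AddSubgroup (F → ZMod 2) where
  carrier := {g | ∃ J : Set I, J.Countable ∧
    ∀ A B : F, (A : Set I) ∩ J = (B : Set I) ∩ J → g A = g B}
  zero_mem' := ⟨∅, Set.countable_empty, fun _ _ _ => rfl⟩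
  add_mem' := by
    rintro a b ⟨J, hJ, hj⟩ ⟨L, hL, hl⟩
    refine ⟨J ∪ L, hJ.union hL, fun A B h => ?_⟩
    have h1 : (A : Set I) ∩ J = (B : Set I) ∩ J := by
      ext i
      have := congrArg (fun s => i ∈ s) h
      simp only [Set.mem_inter_iff, Set.mem_union, eq_iff_iff] at this ⊢
      tauto
    have h2 : (A : Set I) ∩ L = (B : Set I) ∩ L := by
      ext i
      have := congrArg (fun s => i ∈ s) h
      simp only [Set.mem_inter_iff, Set.mem_union, eq_iff_iff] at this ⊢
      tauto
    simp [hj A B h1, hl A B h2]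
  neg_mem' := by
    rintro a ⟨J, hJ, hj⟩
    exact ⟨J, hJ, fun A B h => by simp [hj A B h]⟩

/-- the functions depending only on the trace on `J` -/
def traceDep {I : Type} (F : Set (Set I)) (J : Set I) : Set (F → ZMod 2) :=
  {g | ∀ A B : F, (A : Set I) ∩ J = (B : Set I) ∩ J → g A = g B}

lemma isClosed_traceDep {I : Type} (F : Set (Set I)) (J : Set I) : IsClosed (traceDep F J) := by
  have : traceDep F J = ⋂ (A : F) (B : F) (_ : (A : Set I) ∩ J = (B : Set I) ∩ J),
      {g : F → ZMod 2 | g A = g B} := by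
    ext g; simp [traceDep]
  rw [this]
  refine isClosed_iInter fun A => isClosed_iInter fun B => isClosed_iInter fun _ => ?_
  exact isClosed_eq (continuous_apply A) (continuous_apply B)

lemma traceDep_mono {I : Type} (F : Set (Set I)) {J L : Set I} (h : J ⊆ L) :
    traceDep F J ⊆ traceDep F L := by
  intro g hg A B hAB
  apply hg A B
  ext i
  have := congrArg (fun s => i ∈ s) hAB
  simp only [Set.mem_inter_iff, eq_iff_iff] at this ⊢
  have hi : i ∈ J → i ∈ L := fun hi => h hi
  tauto

theorem TG_omegaBounded {I : Type} (F : Set (Set I)) : OmegaBounded (TG F) := by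
  intro D hD
  have hch : ∀ d : TG F, ∃ J : Set I, J.Countable ∧ (d : F → ZMod 2) ∈ traceDep F J := by
    rintro ⟨d, J, hJ, h⟩
    exact ⟨J, hJ, h⟩
  choose J hJ hJd using hch
  set L : Set I := ⋃ d ∈ D, J d with hL
  have hLc : L.Countable := hD.biUnion fun d _ => hJ d
  set K : Set (TG F) := Subtype.val ⁻¹' traceDep F L with hK
  have hKclosed : IsClosed K := (isClosed_traceDep F L).preimage continuous_subtype_val
  have hKcompact : IsCompact K := by
    refine IsInducing.subtypeVal.isCompact_iff.mpr ?_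
    convert (isClosed_traceDep F L).isCompact using 1
    ext g
    constructor
    · rintro ⟨g', hg', rfl⟩; exact hg'
    · intro hg
      exact ⟨⟨g, L, hLc, hg⟩, hg, rfl⟩
  have hDK : D ⊆ K := by
    intro d hd
    exact traceDep_mono F (Set.subset_biUnion_of_mem hd) (hJd d)
  exact hKcompact.of_isClosed_subset isClosed_closure (closure_minimal hDK hKclosed)

lemma mk_traceDep_le {I : Type} (F : Set (Set I)) (J : Set I) :
    #(traceDep F J) ≤ (2 : Cardinal.{0}) ^ #((fun A : Set I => A ∩ J) '' F) := by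
  have h2 : (2 : Cardinal.{0}) ^ #((fun A : Set I => A ∩ J) '' F) =
      #(((fun A : Set I => A ∩ J) '' F) → ZMod 2) := by
    rw [← Cardinal.power_def]
    congr 1
    simp
  rw [h2]
  have hch : ∀ t : ((fun A : Set I => A ∩ J) '' F), ∃ A : F, (A : Set I) ∩ J = t := by
    rintro ⟨t, A, hA, rfl⟩
    exact ⟨⟨A, hA⟩, rfl⟩
  choose R hR using hch
  refine Cardinal.mk_le_of_injective (f := fun g t => g.1 (R t)) ?_
  intro g g' hgg
  apply Subtype.ext
  funext A
  have h3 := congrFun hgg ⟨(A : Set I) ∩ J, A, A.2, rfl⟩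
  have h4 := hR ⟨(A : Set I) ∩ J, A, A.2, rfl⟩
  rw [g.2 A _ h4.symm, g'.2 A _ h4.symm]
  exact h3

theorem TG_card_le {I : Type} (F : Set (Set I)) {lam : Cardinal.{0}} (hlam : lam ^ ℵ₀ = lam)
    (hI : #I ≤ lam) (h2 : 2 ≤ lam)
    (hF : ∀ J : Set I, J.Countable →
      (2 : Cardinal.{0}) ^ #((fun A : Set I => A ∩ J) '' F) ≤ lam) : #(TG F) ≤ lam := by
  have hinf : ℵ₀ ≤ lam := by
    calc ℵ₀ ≤ (2 : Cardinal.{0}) ^ ℵ₀ := (Cardinal.cantor _).le
      _ ≤ lam ^ ℵ₀ := Cardinal.power_le_power_right h2
      _ = lam := hlam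
  let Jof : Option (ℕ → I) → Set I := fun s => s.elim ∅ Set.range
  have hJof : ∀ s, (Jof s).Countable := by
    intro s
    cases s with
    | none => exact Set.countable_empty
    | some s => exact Set.countable_range s
  let Φ : (Σ s : Option (ℕ → I), traceDep F (Jof s)) → TG F :=
    fun p => ⟨p.2.1, Jof p.1, hJof p.1, p.2.2⟩
  have hΦ : Function.Surjective Φ := by
    rintro ⟨g, J, hJ, hg⟩
    rcases J.eq_empty_or_nonempty with hJ0 | hJ0
    · refine ⟨⟨none, ⟨g, ?_⟩⟩, rfl⟩
      rw [hJ0] at hg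
      exact hg
    · obtain ⟨s, hs⟩ := hJ.exists_eq_range hJ0
      refine ⟨⟨some s, ⟨g, ?_⟩⟩, rfl⟩
      rw [hs] at hg
      exact hg
  refine (Cardinal.mk_le_of_surjective hΦ).trans ?_
  rw [Cardinal.mk_sigma]
  refine (Cardinal.sum_le_sum _ (fun _ => lam)
    fun s => (mk_traceDep_le F _).trans (hF _ (hJof s))).trans ?_
  rw [Cardinal.sum_const']
  have h3 : #(Option (ℕ → I)) ≤ lam := by
    rw [Cardinal.mk_option]
    refine (Cardinal.add_le_max _ _).trans ?_
    refine max_le (max_le ?_ ?_) hinf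
    · have : #(ℕ → I) = #I ^ ℵ₀ := by rw [← Cardinal.power_def]; simp
      rw [this]
      exact (Cardinal.power_le_power_right hI).trans hlam.le
    · exact (Cardinal.one_le_aleph0).trans hinf
  calc #(Option (ℕ → I)) * lam ≤ lam * lam := mul_le_mul_left h3 lam
    _ = lam := Cardinal.mul_eq_self hinf

theorem TG_weight_le {I : Type} (F : Set (Set I)) : weight (TG F) ≤ max #F ℵ₀ := by
  let Φ : List (F × Set (ZMod 2)) → Set (TG F) := fun l => {g | ∀ p ∈ l, g.1 p.1 ∈ p.2}
  have hopen : ∀ l, IsOpen (Φ l) := by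
    intro l
    induction l with
    | nil =>
      have : Φ [] = Set.univ := by ext g; simp [Φ]
      rw [this]; exact isOpen_univ
    | cons p l ih =>
      have : Φ (p :: l) = {g : TG F | g.1 p.1 ∈ p.2} ∩ Φ l := by
        ext g
        simp only [Φ, Set.mem_ofPred_eq, List.mem_cons, forall_eq_or_imp, Set.mem_inter_iff]
      rw [this]
      refine IsOpen.inter ?_ ih
      have hc : Continuous fun g : TG F => g.1 p.1 :=
        (continuous_apply p.1).comp continuous_subtype_val
      exact (isOpen_discrete p.2).preimage hc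
  have hbasis : TopologicalSpace.IsTopologicalBasis (Set.range Φ) := by
    apply TopologicalSpace.isTopologicalBasis_of_isOpen_of_nhds
    · rintro _ ⟨l, rfl⟩; exact hopen l
    · intro a u ha hu
      obtain ⟨v, hv, rfl⟩ := isOpen_induced_iff.mp hu
      obtain ⟨S, w, hw, hsub⟩ := isOpen_pi_iff.mp hv a.1 ha
      refine ⟨Φ (S.toList.map fun i => (i, w i)), ⟨_, rfl⟩, ?_, ?_⟩
      · intro p hp
        obtain ⟨i, hi, rfl⟩ := List.mem_map.mp hp
        exact (hw i (Finset.mem_toList.mp hi)).2
      · intro g hg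
        apply hsub
        intro i hi
        exact hg (i, w i) (List.mem_map.mpr ⟨i, Finset.mem_toList.mpr hi, rfl⟩)
  have h1 : weight (TG F) ≤ #(Set.range Φ) := csInf_le' ⟨Set.range Φ, hbasis, rfl⟩
  refine h1.trans (Cardinal.mk_range_le.trans ?_)
  refine (Cardinal.mk_list_le_max _).trans ?_
  refine max_le (le_max_right _ _) ?_
  rw [Cardinal.mk_prod, Cardinal.lift_id, Cardinal.lift_id]
  refine (Cardinal.mul_le_max _ _).trans ?_
  refine max_le (max_le (le_max_left _ _) ?_) (le_max_right _ _)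
  exact (Cardinal.mk_le_aleph0 (α := Set (ZMod 2))).trans (le_max_right _ _)

theorem TG_card_le_cchar {I : Type} (F : Set (Set I)) : #F ≤ #(CChar (TG F)) := by
  let ev : F → (TG F →+ ZMod 2) := fun A =>
    (Pi.evalAddMonoidHom (fun _ : F => ZMod 2) A).comp (TG F).subtype
  have hev : ∀ A, Continuous (ev A) := fun A =>
    (continuous_apply A).comp continuous_subtype_val
  let Ψ : F → CChar (TG F) := fun A =>
    ⟨(ZMod.toCircle (N := 2)).compAddMonoidHom (ev A),
      (continuous_of_discreteTopology (f := (ZMod.toCircle (N := 2)))).comp (hev A)⟩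
  refine Cardinal.mk_le_of_injective (f := Ψ) ?_
  intro A B hAB
  apply Subtype.ext
  ext i
  classical
  let g : TG F := ⟨fun C => if i ∈ (C : Set I) then 1 else 0, {i}, Set.countable_singleton i, by
    intro C C' h
    have := congrArg (fun s => i ∈ s) h
    simp only [Set.mem_inter_iff, Set.mem_singleton_iff, and_true, eq_iff_iff] at this
    simp only [this]⟩
  have h1 : ZMod.toCircle (N := 2) (g.1 A) = ZMod.toCircle (N := 2) (g.1 B) :=
    congrArg (fun χ : CChar (TG F) => χ.1 g) hAB
  have h2 := ZMod.injective_toCircle h1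
  by_cases hA : i ∈ (A : Set I) <;> by_cases hB : i ∈ (B : Set I) <;>
    simp_all [g]

end Pool.Agent.Kur
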