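import Mathlib
import Pool.Agent.Kur.Defs
import Pool.Agent.Kur.OB
import Pool.Agent.Kur.OB2
import Pool.Agent.Kur.KAK
import Pool.Agent.Kur.TG
import Pool.Agent.Kur.FAM
import Pool.Agent.Kur.Kurepa

/-! Final assembly for MP_14431a_gt. -/

open Cardinal Topology Set

namespace Pool.Agent.Kur

universe u

theorem continuum_le_of_omegaBounded {G : Type} [AddCommGroup G] [TopologicalSpace G]
    [IsTopologicalAddGroup G] [T2Space G] (hG : OmegaBounded G) [Infinite G] : 𝔠 ≤ #G := by
  let e : ℕ ↪ G := Infinite.natEmbedding G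
  let D : Set G := Set.range e
  have hD : D.Countable := Set.countable_range e
  haveI := compactSpace_closure hG hD
  haveI : Infinite (AddSubgroup.closure D).topologicalClosure := by
    have hmem : ∀ n, e n ∈ (AddSubgroup.closure D).topologicalClosure := fun n =>
      subset_closure (AddSubgroup.subset_closure ⟨n, rfl⟩)
    refine Infinite.of_injective (fun n : ℕ => (⟨e n, hmem n⟩ :
      (AddSubgroup.closure D).topologicalClosure)) ?_
    intro m n h
    exact e.injective (congrArg Subtype.val h)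
  exact (continuum_le_card (K := (AddSubgroup.closure D).topologicalClosure)).trans
    (Cardinal.mk_subtype_le _)

theorem weight_le_of_finite {X : Type} [TopologicalSpace X] [T2Space X] [Finite X] :
    weight X ≤ #X := by
  refine (weight_le_card_basis (isTopologicalBasis_singletons X)).trans ?_
  have : {s : Set X | ∃ x, s = {x}} = Set.range (fun x : X => ({x} : Set X)) := by
    ext s; constructor
    · rintro ⟨x, rfl⟩; exact ⟨x, rfl⟩
    · rintro ⟨x, rfl⟩; exact ⟨x, rfl⟩
  rw [this]
  exact Cardinal.mk_range_le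

theorem omegaBounded_of_surjective {X Y : Type} [TopologicalSpace X] [TopologicalSpace Y]
    [T2Space Y] (hX : OmegaBounded X) {f : X → Y} (hf : Continuous f)
    (hs : Function.Surjective f) : OmegaBounded Y := by
  intro D hD
  choose g hg using hs
  have hcomp := (hX (g '' D) (hD.image g)).image hf
  refine hcomp.of_isClosed_subset isClosed_closure ?_
  refine closure_minimal ?_ hcomp.isClosed
  intro d hd
  exact ⟨g d, subset_closure ⟨d, hd, rfl⟩, hg d⟩

theorem card_cchar_le_of_surjective {G H : Type} [AddCommGroup G] [TopologicalSpace G]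
    [AddCommGroup H] [TopologicalSpace H] (f : G →+ H) (hf : Continuous f)
    (hs : Function.Surjective f) : #(CChar H) ≤ #(CChar G) := by
  refine Cardinal.mk_le_of_injective
    (f := fun χ : CChar H => (⟨χ.1.compAddMonoidHom f, χ.2.comp hf⟩ : CChar G)) ?_
  intro χ ψ h
  apply Subtype.ext
  ext y : 1
  obtain ⟨x, rfl⟩ := hs y
  have h1 := congrArg (fun θ : CChar G => θ.1 x) h
  exact h1

/-- Reduction: a group that is not projectively weight-small has an image of larger weight than
cardinality. -/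
theorem exists_image_of_not_pws {G : Type} [AddCommGroup G] [TopologicalSpace G]
    [IsTopologicalAddGroup G] [T2Space G] (hG : OmegaBounded G)
    (hn : ¬ ProjectivelyWeightSmall G) :
    ∃ (H : Type) (_ : AddCommGroup H) (_ : TopologicalSpace H) (_ : IsTopologicalAddGroup H)
      (_ : T2Space H), OmegaBounded H ∧ #H < weight H ∧ weight H ≤ weight G ∧ 𝔠 ≤ #H := by
  unfold ProjectivelyWeightSmall at hn
  push Not at hn
  obtain ⟨H, iH, tH, gH, t2H, f, hf, hs, hw⟩ := hn
  have hcomm : ∀ a b : H, a + b = b + a := by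
    intro a b
    obtain ⟨x, rfl⟩ := hs a
    obtain ⟨y, rfl⟩ := hs b
    rw [← map_add, ← map_add, add_comm]
  let iH' : AddCommGroup H := { iH with add_comm := hcomm }
  have hOB : OmegaBounded H := omegaBounded_of_surjective hG hf hs
  have hinf : Infinite H := by
    rw [← not_finite_iff_infinite]
    intro hfin
    exact absurd (weight_le_of_finite (X := H)) (not_le.2 hw)
  have hcont : 𝔠 ≤ #H := continuum_le_of_omegaBounded hOB
  have h1 : weight H ≤ max #(CChar H) ℵ₀ := weight_le_card_cchar (precompact_of_omegaBounded hOB)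
  have h2 : #(CChar H) ≤ #(CChar G) := card_cchar_le_of_surjective f hf hs
  have h3 : #(CChar G) ≤ max (weight G) ℵ₀ := card_cchar_le (precompact_of_omegaBounded hG)
  have h4 : weight H ≤ max (weight G) ℵ₀ :=
    h1.trans (max_le (h2.trans h3) (le_max_right _ _))
  have h5 : weight H ≤ weight G := by
    rcases le_max_iff.1 h4 with h | h
    · exact h
    · exact absurd (h.trans (aleph0_le_continuum.trans hcont)) (not_le.2 hw)
  exact ⟨H, iH', tH, gH, t2H, hOB, hw, h5, hcont⟩

/-- From a trace family one gets a group of weight exactly `lam⁺` and cardinality at most `lam`. -/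
theorem exists_group_of_traceFamily {lam : Cardinal.{0}} (hlam : lam ^ (ℵ₀ : Cardinal.{0}) = lam)
    (h2 : 2 ≤ lam) (h : TraceFamily lam) :
    ∃ (G : Type) (_ : AddCommGroup G) (_ : TopologicalSpace G) (_ : IsTopologicalAddGroup G)
      (_ : T2Space G), OmegaBounded G ∧ #G ≤ lam ∧ weight G = Order.succ lam := by
  obtain ⟨I, F, hI, hF, hJ⟩ := h
  have hcont : 𝔠 ≤ lam := by
    rw [← hlam, ← two_power_aleph0]
    exact Cardinal.power_le_power_right h2
  have hal : ℵ₀ ≤ lam := aleph0_le_continuum.trans hcont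
  obtain ⟨F', hF'F, hF'⟩ := Cardinal.le_mk_iff_exists_subset.1 (Order.succ_le_of_lt hF)
  have hJ' : ∀ J : Set I, J.Countable →
      (2 : Cardinal.{0}) ^ #((fun A : Set I => A ∩ J) '' F') ≤ lam := by
    intro J hJc
    refine le_trans (Cardinal.power_le_power_left two_ne_zero ?_) (hJ J hJc)
    exact Cardinal.mk_le_mk_of_subset (Set.image_mono hF'F)
  refine ⟨TG F', inferInstance, inferInstance, inferInstance, inferInstance,
    TG_omegaBounded F', TG_card_le F' hlam hI h2 hJ', le_antisymm ?_ ?_⟩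
  · refine (TG_weight_le F').trans ?_
    rw [hF']
    exact max_le le_rfl (hal.trans (Order.le_succ lam))
  · have h1 : #F' ≤ max (weight (TG F')) ℵ₀ :=
      (TG_card_le_cchar F').trans (card_cchar_le (precompact_of_omegaBounded (TG_omegaBounded F')))
    rw [hF'] at h1
    rcases le_max_iff.1 h1 with h | h
    · exact h
    · exact absurd (h.trans hal) (not_le.2 (Order.lt_succ lam))

theorem not_pws_of_card_lt_weight {G : Type} [AddCommGroup G] [TopologicalSpace G]
    [IsTopologicalAddGroup G] [T2Space G] (h : #G < weight G) : ¬ ProjectivelyWeightSmall G := by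
  intro hp
  exact absurd (hp G (AddMonoidHom.id G) continuous_id Function.surjective_id) (not_le.2 h)

theorem sigma_le {lam : Cardinal.{0}} (hlam : lam ^ (ℵ₀ : Cardinal.{0}) = lam) (h2 : 2 ≤ lam)
    (h : TraceFamily lam) : sigma ≤ Order.succ lam := by
  obtain ⟨G, i1, i2, i3, i4, hOB, hc, hw⟩ := exists_group_of_traceFamily hlam h2 h
  refine csInf_le (OrderBot.bddBelow _) ⟨G, i1, i2, i3, i4, hOB, hw, ?_⟩
  refine not_pws_of_card_lt_weight ?_
  rw [hw]
  exact hc.trans_lt (Order.lt_succ lam)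

theorem traceFamily_two_pow_continuum : TraceFamily (2 ^ 𝔠) := by
  refine ⟨Set ℝ, Set.univ, ?_, ?_, ?_⟩
  · rw [Cardinal.mk_set, Cardinal.mk_real]
  · rw [Cardinal.mk_univ, Cardinal.mk_set, Cardinal.mk_set, Cardinal.mk_real]
    exact Cardinal.cantor _
  · intro J hJ
    refine Cardinal.power_le_power_left two_ne_zero ?_
    have h1 : #((fun A : Set (Set ℝ) => A ∩ J) '' Set.univ) ≤ #(Set J) := by
      refine Cardinal.mk_le_of_injective
        (f := fun t : ((fun A : Set (Set ℝ) => A ∩ J) '' Set.univ) =>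
          (Subtype.val ⁻¹' (t : Set (Set ℝ)) : Set J)) ?_
      intro x y hab
      obtain ⟨a, A, hAu, hA⟩ := x
      obtain ⟨b, B, hBu, hB⟩ := y
      have hA' : A ∩ J = a := hA
      have hB' : B ∩ J = b := hB
      have hab' : (Subtype.val ⁻¹' a : Set J) = Subtype.val ⁻¹' b := hab
      apply Subtype.ext
      change a = b
      ext x
      constructor
      · intro hx
        have hxJ : x ∈ J := by rw [← hA'] at hx; exact hx.2
        have h3 : (⟨x, hxJ⟩ : J) ∈ (Subtype.val ⁻¹' a : Set J) := hx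
        rw [hab'] at h3
        exact h3
      · intro hx
        have hxJ : x ∈ J := by rw [← hB'] at hx; exact hx.2
        have h3 : (⟨x, hxJ⟩ : J) ∈ (Subtype.val ⁻¹' b : Set J) := hx
        rw [← hab'] at h3
        exact h3
    refine h1.trans ?_
    rw [Cardinal.mk_set, ← two_power_aleph0]
    refine Cardinal.power_le_power_left two_ne_zero ?_
    exact Cardinal.mk_le_aleph0_iff.2 hJ.to_subtype

theorem two_pow_continuum_pow : ((2 : Cardinal.{0}) ^ 𝔠) ^ (ℵ₀ : Cardinal.{0}) = 2 ^ 𝔠 := by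
  rw [← Cardinal.power_mul, Cardinal.mul_eq_left aleph0_le_continuum aleph0_le_continuum
    aleph0_ne_zero]

theorem sigma_le_succ_two_pow : sigma ≤ Order.succ (2 ^ 𝔠) := by
  refine sigma_le two_pow_continuum_pow ?_ traceFamily_two_pow_continuum
  calc (2 : Cardinal.{0}) = 2 ^ (1 : Cardinal.{0}) := by simp
    _ ≤ 2 ^ 𝔠 := Cardinal.power_le_power_left two_ne_zero
      (Cardinal.one_le_aleph0.trans aleph0_le_continuum)

theorem sigma_mem : ∃ (G : Type) (_ : AddCommGroup G) (_ : TopologicalSpace G)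
    (_ : IsTopologicalAddGroup G) (_ : T2Space G),
      OmegaBounded G ∧ weight G = sigma ∧ ¬ ProjectivelyWeightSmall G := by
  have hne : ({κ : Cardinal.{0} | ∃ (G : Type) (_ : AddCommGroup G) (_ : TopologicalSpace G)
    (_ : IsTopologicalAddGroup G) (_ : T2Space G),
      OmegaBounded G ∧ weight G = κ ∧ ¬ ProjectivelyWeightSmall G}).Nonempty := by
    obtain ⟨G, i1, i2, i3, i4, hOB, hc, hw⟩ := exists_group_of_traceFamily two_pow_continuum_pow
      (by
        calc (2 : Cardinal.{0}) = 2 ^ (1 : Cardinal.{0}) := by simp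
          _ ≤ 2 ^ 𝔠 := Cardinal.power_le_power_left two_ne_zero
            (Cardinal.one_le_aleph0.trans aleph0_le_continuum)) traceFamily_two_pow_continuum
    refine ⟨_, G, i1, i2, i3, i4, hOB, hw, not_pws_of_card_lt_weight ?_⟩
    rw [hw]
    exact hc.trans_lt (Order.lt_succ _)
  exact csInf_mem hne

theorem continuum_lt_sigma : 𝔠 < sigma := by
  obtain ⟨G, i1, i2, i3, i4, hOB, hw, hn⟩ := sigma_mem
  obtain ⟨H, j1, j2, j3, j4, hOBH, h1, h2, h3⟩ := exists_image_of_not_pws hOB hn
  rw [← hw]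
  exact (h3.trans_lt h1).trans_le h2

theorem sigma_eq_iff : sigma = Order.succ 𝔠 ↔ TraceFamily 𝔠 := by
  have hcc : 𝔠 ^ (ℵ₀ : Cardinal.{0}) = 𝔠 := continuum_power_aleph0
  have h2 : (2 : Cardinal.{0}) ≤ 𝔠 := (Cardinal.ofNat_lt_aleph0.le).trans aleph0_le_continuum
  constructor
  · intro h
    obtain ⟨G, i1, i2, i3, i4, hOB, hw, hn⟩ := sigma_mem
    obtain ⟨H, j1, j2, j3, j4, hOBH, h1, h2', h3⟩ := exists_image_of_not_pws hOB hn
    rw [hw, h] at h2'
    have hle : #H ≤ 𝔠 := Order.lt_succ_iff.1 (h1.trans_le h2')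
    have hlt : 𝔠 < weight H := h3.trans_lt h1
    exact traceFamily_of_group le_rfl H hOBH hle hlt
  · intro h
    exact le_antisymm (sigma_le hcc h2 h) (Order.succ_le_of_lt continuum_lt_sigma)

theorem group_iff_traceFamily {lam : Cardinal.{0}} (hlam : lam ^ (ℵ₀ : Cardinal.{0}) = lam)
    (h2 : 2 ≤ lam) :
    (∃ (G : Type) (_ : AddCommGroup G) (_ : TopologicalSpace G) (_ : IsTopologicalAddGroup G)
      (_ : T2Space G), OmegaBounded G ∧ #G ≤ lam ∧ lam < weight G) ↔ TraceFamily lam := by
  constructor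
  · rintro ⟨G, i1, i2, i3, i4, hOB, hc, hw⟩
    refine traceFamily_of_group ?_ G hOB hc hw
    rw [← hlam, ← two_power_aleph0]
    exact Cardinal.power_le_power_right h2
  · intro h
    obtain ⟨G, i1, i2, i3, i4, hOB, hc, hw⟩ := exists_group_of_traceFamily hlam h2 h
    exact ⟨G, i1, i2, i3, i4, hOB, hc, hw ▸ Order.lt_succ lam⟩

/-- `σ` is at least the successor of some `lam ≥ 𝔠` carrying a trace family. -/
theorem exists_traceFamily_succ_le_sigma :
    ∃ lam : Cardinal.{0}, 𝔠 ≤ lam ∧ TraceFamily lam ∧ Order.succ lam ≤ sigma := by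
  obtain ⟨G, i1, i2, i3, i4, hOB, hw, hn⟩ := sigma_mem
  obtain ⟨H, j1, j2, j3, j4, hOBH, h1, h2, h3⟩ := exists_image_of_not_pws hOB hn
  refine ⟨#H, h3, traceFamily_of_group h3 H hOBH le_rfl h1, ?_⟩
  rw [← hw]
  exact (Order.succ_le_of_lt h1).trans h2

theorem sigma_eq_aleph_two_iff (hCH : (𝔠 : Cardinal.{0}) = ℵ_ 1) :
    sigma = ℵ_ 2 ↔ KurepaHypothesis := by
  rw [← traceFamily_continuum_iff_kurepa hCH, ← sigma_eq_iff, hCH, Cardinal.succ_aleph,
    one_add_one_eq_two]

theorem sigma_eq_aleph_three (hCH : (𝔠 : Cardinal.{0}) = ℵ_ 1)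
    (h2 : (2 : Cardinal.{0}) ^ (ℵ_ 1) = ℵ_ 2) (hK : ¬ KurepaHypothesis) : sigma = ℵ_ 3 := by
  have h23 : (ℵ_ 3 : Cardinal.{0}) = Order.succ (ℵ_ 2) := by
    rw [Cardinal.succ_aleph]
    norm_num
  apply le_antisymm
  · have h := sigma_le_succ_two_pow
    rw [hCH, h2] at h
    rw [h23]
    exact h
  · have h1 : Order.succ (𝔠 : Cardinal.{0}) ≤ sigma := Order.succ_le_of_lt continuum_lt_sigma
    rw [hCH, Cardinal.succ_aleph, one_add_one_eq_two] at h1
    have hne : sigma ≠ ℵ_ 2 := fun h => hK ((sigma_eq_aleph_two_iff hCH).1 h)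
    rw [h23]
    exact Order.succ_le_of_lt (lt_of_le_of_ne h1 (Ne.symm hne))

end Pool.Agent.Kur
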