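import Mathlib

/-! Gelfand theory input for the Peter-Weyl theorem of compact abelian groups. -/

open MeasureTheory Set Topology Filter
open scoped ComplexConjugate ENNReal NNReal

namespace Pool.Agent.Kur

theorem pw_radius {A : Type*} [NormedRing A] [NormedAlgebra ℂ A] [CompleteSpace A]
    (a : A) {c θ : ℝ} (hc : 0 < c)
    (hθ : 0 < θ) (hpow : ∀ k : ℕ, c * θ ^ (2 ^ k) ≤ ‖a ^ (2 ^ k)‖) :
    spectralRadius ℂ a ≠ 0 := by
  intro h0
  have hl := spectrum.pow_nnnorm_pow_one_div_tendsto_nhds_spectralRadius a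
  rw [h0] at hl
  have hsub : Tendsto (fun k : ℕ => 2 ^ k) atTop (atTop : Filter ℕ) :=
    tendsto_pow_atTop_atTop_of_one_lt (by norm_num)
  have hl2 := hl.comp hsub
  have hθ2 : (0 : ℝ≥0∞) < ENNReal.ofReal (θ / 2) := by
    rw [ENNReal.ofReal_pos]; positivity
  have hev := hl2.eventually (gt_mem_nhds hθ2)
  have hpowc : Tendsto (fun k : ℕ => ((1 / 2 : ℝ)) ^ (2 ^ k)) atTop (𝓝 0) :=
    (tendsto_pow_atTop_nhds_zero_of_lt_one (by norm_num) (by norm_num)).comp hsub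
  have hev2 := hpowc.eventually (gt_mem_nhds hc)
  obtain ⟨k, hk1, hk2⟩ := (hev.and hev2).exists
  simp only [Function.comp] at hk1
  have hn : (2 ^ k : ℕ) ≠ 0 := by positivity
  -- from the Gelfand formula
  have h1 : (‖a ^ (2 ^ k)‖₊ : ℝ≥0∞) < ENNReal.ofReal (θ / 2) ^ (2 ^ k : ℕ) := by
    have := ENNReal.rpow_lt_rpow hk1 (z := ((2 ^ k : ℕ) : ℝ)) (by positivity)
    rw [← ENNReal.rpow_mul, one_div, inv_mul_cancel₀ (by positivity), ENNReal.rpow_one,
      ENNReal.rpow_natCast] at this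
    exact this
  rw [← ENNReal.ofReal_pow (by positivity)] at h1
  have h2 : ‖a ^ (2 ^ k)‖ < (θ / 2) ^ (2 ^ k) := by
    have h3 : ENNReal.ofReal ‖a ^ (2 ^ k)‖ < ENNReal.ofReal ((θ / 2) ^ (2 ^ k)) := by
      rw [ofReal_norm]; exact h1
    exact (ENNReal.ofReal_lt_ofReal_iff_of_nonneg (norm_nonneg _)).1 h3
  have h3 := (hpow k).trans_lt h2
  have h4 : (θ / 2) ^ (2 ^ k) = (1 / 2 : ℝ) ^ (2 ^ k) * θ ^ (2 ^ k) := by
    rw [← mul_pow]; congr 1; ring
  rw [h4] at h3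
  have h5 : 0 < θ ^ (2 ^ k) := by positivity
  have h6 := lt_of_mul_lt_mul_right h3 h5.le
  linarith

theorem pw_gelfand {A : Type*} [NormedRing A] [NormedAlgebra ℂ A] [CompleteSpace A] (S : Set A)
    (hS : ∀ a ∈ S, ∀ b ∈ S, a * b = b * a) (b b' : A) (hb : b ∈ S) (hb' : b' ∈ S) {c θ : ℝ}
    (hc : 0 < c) (hθ : 0 < θ) (hpow : ∀ k : ℕ, c * θ ^ (2 ^ k) ≤ ‖(b * b') ^ (2 ^ k)‖) :
    ∃ (C : Subalgebra ℂ A) (hC : S ⊆ C) (φ : C →ₐ[ℂ] ℂ) (M : ℝ),
      (∀ y : C, ‖φ y‖ ≤ M * ‖(y : A)‖) ∧ φ ⟨b', hC hb'⟩ ≠ 0 := by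
  classical
  set C : Subalgebra ℂ A := Subalgebra.centralizer ℂ (Subalgebra.centralizer ℂ S : Set A)
    with hCdef
  have hSC : S ⊆ (C : Set A) := by
    intro s hs
    rw [hCdef, Subalgebra.coe_centralizer, Subalgebra.coe_centralizer]
    exact Set.subset_centralizer_centralizer hs
  have hSS : S ⊆ Set.centralizer S := by
    intro s hs t ht
    exact hS t ht s hs
  have hcomm : ∀ x ∈ C, ∀ y ∈ C, x * y = y * x := by
    intro x hx y hy
    rw [hCdef, Subalgebra.mem_centralizer_iff] at hx hy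
    have h1 : y ∈ Subalgebra.centralizer ℂ S := by
      rw [Subalgebra.mem_centralizer_iff]
      intro g hg
      exact hy g (by rw [Subalgebra.coe_centralizer]; exact hSS hg)
    exact (hx y h1).symm
  have hclosed : IsClosed (C : Set A) := by
    rw [hCdef, Subalgebra.coe_centralizer]
    exact Set.isClosed_centralizer _
  have haC : b * b' ∈ C := C.mul_mem (hSC hb) (hSC hb')
  haveI : CompleteSpace C := hclosed.completeSpace_coe
  letI iC : NormedCommRing C :=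
    { (inferInstance : NormedRing C) with
      mul_comm := fun x y => Subtype.ext (hcomm x x.2 y y.2) }
  letI iA : NormedAlgebra ℂ C := inferInstance
  have hr : spectralRadius ℂ (⟨b * b', haC⟩ : C) ≠ 0 := by
    refine pw_radius (⟨b * b', haC⟩ : C) hc hθ fun k => ?_
    have : ‖(⟨b * b', haC⟩ : C) ^ (2 ^ k)‖ = ‖(b * b') ^ (2 ^ k)‖ := rfl
    rw [this]
    exact hpow k
  haveI hnt : Nontrivial C := by
    by_contra hn
    rw [not_nontrivial_iff_subsingleton] at hn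
    exact hr (spectrum.SpectralRadius.of_subsingleton _)
  obtain ⟨z, hz, hzr⟩ := spectrum.exists_nnnorm_eq_spectralRadius (⟨b * b', haC⟩ : C)
  obtain ⟨f, hf⟩ := WeakDual.CharacterSpace.mem_spectrum_iff_exists.1 hz
  have hz0 : z ≠ 0 := by
    rintro rfl
    simp at hzr
    exact hr hzr.symm
  refine ⟨C, hSC, WeakDual.CharacterSpace.toAlgHom f, ‖(WeakDual.CharacterSpace.toCLM f)‖, ?_, ?_⟩
  · intro y
    exact (WeakDual.CharacterSpace.toCLM f).le_opNorm y
  · have h1 : (WeakDual.CharacterSpace.toAlgHom f) ⟨b * b', haC⟩ = z := hf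
    have h2 : (⟨b * b', haC⟩ : C) = ⟨b, hSC hb⟩ * ⟨b', hSC hb'⟩ := rfl
    rw [h2, map_mul] at h1
    intro h3
    rw [h3, mul_zero] at h1
    exact hz0 h1.symm

end Pool.Agent.Kur
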