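import Mathlib

/-! Translation and convolution operators on `C(K)` for a compact abelian group `K`. -/

open MeasureTheory Set Topology Filter
open scoped ComplexConjugate ENNReal NNReal

namespace Pool.Agent.Kur

universe u

section PW

variable {K : Type u} [AddCommGroup K] [TopologicalSpace K] [IsTopologicalAddGroup K]
  [CompactSpace K]

/-- translation operator -/
noncomputable def pU (g : K) : C(K, ℂ) →L[ℂ] C(K, ℂ) :=
  LinearMap.mkContinuous
    { toFun := fun h => ⟨fun y => h (y + g), by fun_prop⟩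
      map_add' := fun h k => by ext y; rfl
      map_smul' := fun c h => by ext y; rfl } 1 (by
      intro h
      rw [one_mul]
      exact (ContinuousMap.norm_le _ (norm_nonneg _)).2 fun y => h.norm_coe_le_norm _)

@[simp] lemma pU_apply (g : K) (h : C(K, ℂ)) (y : K) : pU g h y = h (y + g) := rfl

lemma pU_mul (g g' : K) : pU g * pU g' = pU (g + g') := by
  ext h y
  show h (y + g + g') = h (y + (g + g'))
  rw [add_assoc]

lemma pU_zero : pU (0 : K) = 1 := by
  ext h y
  show h (y + 0) = h y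
  rw [add_zero]

lemma pU_norm (g : K) : ‖pU g‖ ≤ 1 :=
  LinearMap.mkContinuous_norm_le _ zero_le_one _

lemma pU_norm_apply (g : K) (h : C(K, ℂ)) : ‖pU g h‖ ≤ ‖h‖ := by
  have := (pU g).le_of_opNorm_le (pU_norm g) h
  rwa [one_mul] at this

lemma pU_cont (h : C(K, ℂ)) : Continuous (fun g : K => pU g h) := by
  let F : C(K × K, ℂ) := ⟨fun p => h (p.2 + p.1), by fun_prop⟩
  have h1 : (fun g : K => pU g h) = fun g => F.curry g := by
    funext g
    ext y
    rfl
  rw [h1]
  exact F.curry.continuous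

/-- translates of a real function -/
noncomputable def pshift (f : C(K, ℝ)) (x : K) : C(K, ℝ) := ⟨fun g => f (g - x), by fun_prop⟩

@[simp] lemma pshift_apply (f : C(K, ℝ)) (x g : K) : pshift f x g = f (g - x) := rfl

lemma pshift_cont (f : C(K, ℝ)) : Continuous (fun x : K => pshift f x) := by
  let F : C(K × K, ℝ) := ⟨fun p => f (p.2 - p.1), by fun_prop⟩
  have h1 : (fun x : K => pshift f x) = fun x => F.curry x := by
    funext x
    ext y
    rfl
  rw [h1]
  exact F.curry.continuous

variable [MeasurableSpace K] [BorelSpace K] (μ : Measure K) [IsFiniteMeasure μ]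

lemma pw_integrable {E : Type*} [NormedAddCommGroup E] {F : K → E} (hF : Continuous F) :
    Integrable F μ :=
  hF.integrable_of_hasCompactSupport (HasCompactSupport.of_compactSpace _)

lemma pT_integrable (σ : C(K, K)) (f : C(K, ℝ)) (h : C(K, ℂ)) :
    Integrable (fun g => f g • pU (σ g) h) μ :=
  pw_integrable μ (f.continuous.smul ((pU_cont h).comp σ.continuous))

/-- averaging operator -/
noncomputable def pT (σ : C(K, K)) (f : C(K, ℝ)) : C(K, ℂ) →L[ℂ] C(K, ℂ) :=
  LinearMap.mkContinuous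
    { toFun := fun h => ∫ g, f g • pU (σ g) h ∂μ
      map_add' := fun h k => by
        rw [← integral_add (pT_integrable μ σ f h) (pT_integrable μ σ f k)]
        simp only [map_add, smul_add]
      map_smul' := fun c h => by
        simp only [map_smul, RingHom.id_apply]
        rw [← integral_smul]
        congr 1
        funext g
        rw [smul_comm] } (‖f‖ * μ.real univ) (by
      intro h
      show ‖∫ g, f g • pU (σ g) h ∂μ‖ ≤ _
      have h1 : ∀ g, ‖f g • pU (σ g) h‖ ≤ ‖f‖ * ‖h‖ := fun g => by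
        rw [norm_smul]
        exact mul_le_mul (f.norm_coe_le_norm g) (pU_norm_apply _ h) (norm_nonneg _) (norm_nonneg _)
      have h2 := norm_integral_le_of_norm_le_const (μ := μ) (Eventually.of_forall h1)
      calc _ ≤ _ := h2
        _ = _ := by ring)

lemma pT_apply' (σ : C(K, K)) (f : C(K, ℝ)) (h : C(K, ℂ)) :
    pT μ σ f h = ∫ g, f g • pU (σ g) h ∂μ := rfl

lemma pT_apply (σ : C(K, K)) (f : C(K, ℝ)) (h : C(K, ℂ)) (y : K) :
    pT μ σ f h y = ∫ g, f g • h (y + σ g) ∂μ := by
  rw [pT_apply']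
  have := (ContinuousMap.evalCLM ℂ y : C(K, ℂ) →L[ℂ] ℂ).integral_comp_comm
    (pT_integrable μ σ f h)
  exact this.symm

lemma pT_norm (σ : C(K, K)) (f : C(K, ℝ)) : ‖pT μ σ f‖ ≤ ‖f‖ * μ.real univ :=
  LinearMap.mkContinuous_norm_le _ (by positivity) _

lemma pT_sub (σ : C(K, K)) (f f' : C(K, ℝ)) : pT μ σ (f - f') = pT μ σ f - pT μ σ f' := by
  ext1 h
  rw [ContinuousLinearMap.sub_apply, pT_apply', pT_apply', pT_apply',
    ← integral_sub (pT_integrable μ σ f h) (pT_integrable μ σ f' h)]
  congr 1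
  funext g
  rw [← sub_smul]; rfl

lemma pU_pT (x : K) (σ : C(K, K)) (f : C(K, ℝ)) : pU x * pT μ σ f = pT μ σ f * pU x := by
  ext h y
  show pU x (pT μ σ f h) y = pT μ σ f (pU x h) y
  rw [pU_apply, pT_apply, pT_apply]
  congr 1
  funext g
  rw [pU_apply]
  congr 2
  abel

lemma pU_pT_apply (x : K) (σ : C(K, K)) (f : C(K, ℝ)) (h : C(K, ℂ)) :
    pU x (pT μ σ f h) = pT μ σ f (pU x h) :=
  congrArg (fun T : C(K, ℂ) →L[ℂ] C(K, ℂ) => T h) (pU_pT μ x σ f)

lemma pT_pT (σ τ : C(K, K)) (f f' : C(K, ℝ)) :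
    pT μ σ f * pT μ τ f' = pT μ τ f' * pT μ σ f := by
  ext1 h
  show pT μ σ f (pT μ τ f' h) = pT μ τ f' (pT μ σ f h)
  rw [pT_apply' μ σ f h, ← (pT μ τ f').integral_comp_comm (pT_integrable μ σ f h), pT_apply']
  congr 1
  funext g
  rw [pU_pT_apply]
  have : f g • pU (σ g) h = ((f g : ℝ) : ℂ) • pU (σ g) h := by
    ext y; simp
  rw [this, map_smul]
  ext y; simp

variable [μ.IsAddLeftInvariant]

lemma pU_mul_pT (x : K) (f : C(K, ℝ)) :
    pU x * pT μ (ContinuousMap.id K) f = pT μ (ContinuousMap.id K) (pshift f x) := by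
  ext h y
  show pU x (pT μ _ f h) y = pT μ _ _ h y
  rw [pU_apply, pT_apply, pT_apply]
  rw [← integral_add_left_eq_self (μ := μ) (fun g => pshift f x g • h (y + (ContinuousMap.id K) g)) x]
  congr 1
  funext g
  simp only [pshift_apply, ContinuousMap.id_apply]
  rw [add_sub_cancel_left, add_assoc]

/-- the inner product -/
noncomputable def pip (h k : C(K, ℂ)) : ℂ := ∫ y, h y * conj (k y) ∂μ

/-- the inner product with a fixed vector, as a continuous linear functional -/
noncomputable def pL (k : C(K, ℂ)) : C(K, ℂ) →L[ℂ] ℂ :=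
  LinearMap.mkContinuous
    { toFun := fun h => ∫ y, h y * conj (k y) ∂μ
      map_add' := fun h h' => by
        rw [← integral_add (pw_integrable μ (by fun_prop)) (pw_integrable μ (by fun_prop))]
        simp only [ContinuousMap.add_apply, add_mul]
      map_smul' := fun c h => by
        simp only [ContinuousMap.smul_apply, RingHom.id_apply, smul_eq_mul]
        rw [← integral_const_mul]
        simp only [mul_assoc] } (‖k‖ * μ.real univ) (by
      intro h
      show ‖∫ y, h y * conj (k y) ∂μ‖ ≤ _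
      have h1 : ∀ y, ‖h y * conj (k y)‖ ≤ ‖h‖ * ‖k‖ := fun y => by
        rw [norm_mul, RCLike.norm_conj]
        exact mul_le_mul (h.norm_coe_le_norm y) (k.norm_coe_le_norm y) (norm_nonneg _)
          (norm_nonneg _)
      have h2 := norm_integral_le_of_norm_le_const (μ := μ) (Eventually.of_forall h1)
      calc _ ≤ _ := h2
        _ = _ := by ring)

omit [μ.IsAddLeftInvariant] in
lemma pL_apply (h k : C(K, ℂ)) : pL μ k h = pip μ h k := rfl

omit [μ.IsAddLeftInvariant] in
lemma pip_norm (h k : C(K, ℂ)) : ‖pip μ h k‖ ≤ ‖k‖ * μ.real univ * ‖h‖ := by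
  rw [← pL_apply]
  exact (pL μ k).le_of_opNorm_le (LinearMap.mkContinuous_norm_le _ (by positivity) _) h

omit [μ.IsAddLeftInvariant] in
lemma pip_conj (h k : C(K, ℂ)) : conj (pip μ h k) = pip μ k h := by
  unfold pip
  rw [← integral_conj]
  congr 1
  funext y
  rw [map_mul, Complex.conj_conj, mul_comm]

lemma pip_U (g : K) (h k : C(K, ℂ)) : pip μ (pU g h) k = pip μ h (pU (-g) k) := by
  unfold pip
  rw [← integral_add_left_eq_self (μ := μ) (fun y => h y * conj (pU (-g) k y)) g]
  congr 1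
  funext y
  rw [pU_apply, pU_apply]
  congr 2
  · abel_nf
  · congr 1; abel_nf

omit [μ.IsAddLeftInvariant] in
lemma pip_smul (r : ℝ) (h k : C(K, ℂ)) : pip μ (r • h) k = r * pip μ h k := by
  unfold pip
  rw [← integral_const_mul]
  congr 1
  funext y
  simp [mul_assoc]

lemma pip_T_left (σ : C(K, K)) (f : C(K, ℝ)) (h k : C(K, ℂ)) :
    pip μ (pT μ σ f h) k = ∫ g, (f g : ℂ) * pip μ (pU (σ g) h) k ∂μ := by
  rw [pT_apply', ← pL_apply, ← (pL μ k).integral_comp_comm (pT_integrable μ σ f h)]
  congr 1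
  funext g
  rw [pL_apply, pip_smul]

lemma pip_T (σ : C(K, K)) (f : C(K, ℝ)) (h k : C(K, ℂ)) :
    pip μ (pT μ σ f h) k = pip μ h (pT μ (-σ) f k) := by
  rw [← pip_conj μ (pT μ (-σ) f k) h, pip_T_left, pip_T_left, ← integral_conj]
  congr 1
  funext g
  rw [map_mul, Complex.conj_ofReal, pip_conj, pip_U, ContinuousMap.neg_apply]

end PW

end Pool.Agent.Kur
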