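import Mathlib
import Pool.Agent.Kur.Final

/-! `σ` is a successor cardinal; exact values. -/

open Cardinal Topology Set

namespace Pool.Agent.Kur

universe u

/-- Hausdorff formula, special case. -/
theorem succ_pow_aleph0 {lam : Cardinal.{0}} (hlam : lam ^ (ℵ₀ : Cardinal.{0}) = lam)
    (h2 : 2 ≤ lam) : (Order.succ lam) ^ (ℵ₀ : Cardinal.{0}) = Order.succ lam := by
  have hal : ℵ₀ ≤ lam := by
    calc ℵ₀ ≤ (2 : Cardinal.{0}) ^ (ℵ₀ : Cardinal.{0}) := (Cardinal.cantor _).le
      _ ≤ lam ^ (ℵ₀ : Cardinal.{0}) := Cardinal.power_le_power_right h2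
      _ = lam := hlam
  have hal' : ℵ₀ ≤ Order.succ lam := hal.trans (Order.le_succ lam)
  apply le_antisymm
  · let W : Type := (Order.succ lam).ord.ToType
    have hW : #W = Order.succ lam := by
      change #((Order.succ lam).ord.ToType) = _
      rw [Cardinal.mk_toType, Cardinal.card_ord]
    have hIio : ∀ a : W, #(Set.Iio a) ≤ lam := by
      intro a
      have h : #(Set.Iio a) < #W := by
        apply mk_Iio_lt
        rw [hW, Ordinal.type_toType]
      rw [hW] at h
      exact Order.lt_succ_iff.1 h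
    have hIic : ∀ a : W, #(Set.Iic a) ≤ lam := by
      intro a
      rw [← Set.Iio_insert]
      refine (Cardinal.mk_insert_le).trans ?_
      calc #(Set.Iio a) + 1 ≤ lam + lam := add_le_add (hIio a) (Cardinal.one_le_aleph0.trans hal)
        _ = lam := Cardinal.add_eq_self hal
    have hbd : ∀ f : ℕ → W, ∃ a : W, ∀ n, f n < a := by
      intro f
      have hc : #(⋃ n, Set.Iic (f n) : Set W) ≤ lam := by
        refine (Cardinal.mk_iUnion_le_sum_mk).trans ?_
        refine (Cardinal.sum_le_sum _ (fun _ => lam) fun n => hIic (f n)).trans ?_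
        rw [Cardinal.sum_const', Cardinal.mk_nat]
        exact (mul_le_mul_left hal lam).trans (Cardinal.mul_eq_self hal).le
      have hne : (⋃ n, Set.Iic (f n) : Set W) ≠ Set.univ := by
        intro h
        rw [h, Cardinal.mk_univ, hW] at hc
        exact absurd hc (not_le.2 (Order.lt_succ lam))
      obtain ⟨a, ha⟩ := (Set.ne_univ_iff_exists_notMem _).1 hne
      refine ⟨a, fun n => ?_⟩
      by_contra hcon
      exact ha (Set.mem_iUnion.2 ⟨n, not_lt.1 hcon⟩)
    choose B hB using hbd
    have hinj : Function.Injective (fun f : ℕ → W =>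
        (⟨B f, fun n => ⟨f n, hB f n⟩⟩ : Σ a : W, (ℕ → Set.Iio a))) := by
      intro f g h
      simp only [Sigma.mk.injEq] at h
      obtain ⟨h1, h2⟩ := h
      funext n
      have h3 : ∀ (a b : W) (p : ℕ → Set.Iio a) (q : ℕ → Set.Iio b), a = b → HEq p q →
          ∀ n, (p n : W) = q n := by
        rintro a b p q rfl hpq n
        rw [eq_of_heq hpq]
      exact h3 _ _ _ _ h1 h2 n
    have hcount : ∀ a : W, #(ℕ → Set.Iio a) ≤ lam := by
      intro a
      calc #(ℕ → Set.Iio a) = #(Set.Iio a) ^ (ℵ₀ : Cardinal.{0}) := by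
            rw [← Cardinal.power_def, Cardinal.mk_nat]
        _ ≤ lam ^ (ℵ₀ : Cardinal.{0}) := Cardinal.power_le_power_right (hIio a)
        _ = lam := hlam
    calc (Order.succ lam) ^ (ℵ₀ : Cardinal.{0}) = #(ℕ → W) := by
          rw [← Cardinal.power_def, Cardinal.mk_nat, hW]
      _ ≤ #(Σ a : W, (ℕ → Set.Iio a)) := Cardinal.mk_le_of_injective hinj
      _ = Cardinal.sum fun a : W => #(ℕ → Set.Iio a) := Cardinal.mk_sigma _
      _ ≤ Cardinal.sum fun _ : W => lam := Cardinal.sum_le_sum _ _ hcount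
      _ = #W * lam := by rw [Cardinal.sum_const']
      _ ≤ Order.succ lam * Order.succ lam := by
          rw [hW]
          exact mul_le_mul_right (Order.le_succ lam) _
      _ = Order.succ lam := Cardinal.mul_eq_self hal'
  · exact Cardinal.self_le_power _ Cardinal.one_le_aleph0

/-- Cutting the weight down: an `ω`-bounded abelian group `H` with `|H| < w(H)` has a continuous
homomorphic image of weight exactly `|H|⁺`. -/
theorem exists_image_succ {H : Type} [AddCommGroup H] [TopologicalSpace H]
    [IsTopologicalAddGroup H] [T2Space H] (hH : OmegaBounded H) (hw : #H < weight H)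
    (hal : ℵ₀ ≤ #H) :
    ∃ (G : Type) (_ : AddCommGroup G) (_ : TopologicalSpace G) (_ : IsTopologicalAddGroup G)
      (_ : T2Space G), OmegaBounded G ∧ #G ≤ #H ∧ weight G = Order.succ #H := by
  have h1 : weight H ≤ max #(CChar H) ℵ₀ := weight_le_card_cchar (precompact_of_omegaBounded hH)
  have h2 : Order.succ #H ≤ #(CChar H) := by
    rcases le_max_iff.1 h1 with h | h
    · exact (Order.succ_le_of_lt hw).trans h
    · exact absurd (h.trans hal) (not_le.2 hw)
  obtain ⟨F, hF⟩ := Cardinal.le_mk_iff_exists_set.1 h2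
  let Φ : H →+ (F → Additive Circle) :=
    { toFun := fun x χ => Additive.ofMul (χ.1.1 x)
      map_zero' := by
        funext χ
        change Additive.ofMul (χ.1.1 0) = 0
        rw [AddChar.map_zero_eq_one]
        rfl
      map_add' := by
        intro x y
        funext χ
        change Additive.ofMul (χ.1.1 (x + y)) = Additive.ofMul (χ.1.1 x) + Additive.ofMul (χ.1.1 y)
        rw [AddChar.map_add_eq_mul]
        rfl }
  have hΦ : Continuous Φ := by
    refine continuous_pi fun χ => ?_
    exact continuous_ofMul.comp χ.1.2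
  let G : AddSubgroup (F → Additive Circle) := Φ.range
  have hr : Continuous (Φ.rangeRestrict : H → G) := Continuous.subtype_mk hΦ _
  have hs : Function.Surjective (Φ.rangeRestrict : H → G) := Φ.rangeRestrict_surjective
  have hOB : OmegaBounded G := omegaBounded_of_surjective hH hr hs
  have hcard : #G ≤ #H := Cardinal.mk_le_of_surjective hs
  refine ⟨G, inferInstance, inferInstance, inferInstance, inferInstance, hOB, hcard,
    le_antisymm ?_ ?_⟩
  · have h3 : weight G ≤ max #F ℵ₀ := by
      refine weight_le_of_family (ι := F) (Y := Additive Circle) (fun χ g => g.1 χ)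
        (fun χ => (continuous_apply χ).comp continuous_subtype_val) ?_
      intro x U hU
      obtain ⟨V, hV, hVU⟩ := mem_nhds_subtype _ _ _ |>.1 hU
      rw [nhds_pi, Filter.mem_pi] at hV
      obtain ⟨I, hI, t, ht, hsub⟩ := hV
      refine ⟨hI.toFinset, fun χ => interior (t χ), ?_, ?_⟩
      · intro χ _
        exact ⟨isOpen_interior, mem_interior_iff_mem_nhds.2 (ht χ)⟩
      · intro y hy
        apply hVU
        apply hsub
        intro χ hχ
        exact interior_subset (hy χ (hI.mem_toFinset.2 hχ))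
    rw [hF] at h3
    exact h3.trans (max_le le_rfl (hal.trans (Order.le_succ _)))
  · have h4 : #F ≤ #(CChar G) := by
      refine Cardinal.mk_le_of_injective (f := fun χ : F => (⟨
        { toFun := fun g => Additive.toMul (g.1 χ)
          map_zero_eq_one' := rfl
          map_add_eq_mul' := fun _ _ => rfl }, ?_⟩ : CChar G)) ?_
      · exact continuous_toMul.comp ((continuous_apply χ).comp continuous_subtype_val)
      · intro χ ψ h
        apply Subtype.ext
        apply Subtype.ext
        ext x : 1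
        exact congrArg (fun θ : CChar G => θ.1 (Φ.rangeRestrict x)) h
    have h5 : #(CChar G) ≤ max (weight G) ℵ₀ := card_cchar_le (precompact_of_omegaBounded hOB)
    have h6 := h4.trans h5
    rw [hF] at h6
    rcases le_max_iff.1 h6 with h | h
    · exact h
    · exact absurd (h.trans hal) (not_le.2 (Order.lt_succ _))

/-- `σ` is the successor of a cardinal `lam ≥ 𝔠` that is the cardinality of an `ω`-bounded abelian
group of larger weight, and `TraceFamily lam` holds. -/
theorem sigma_eq_succ : ∃ lam : Cardinal.{0}, 𝔠 ≤ lam ∧ TraceFamily lam ∧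
    sigma = Order.succ lam := by
  obtain ⟨G, i1, i2, i3, i4, hOB, hw, hn⟩ := sigma_mem
  obtain ⟨H, j1, j2, j3, j4, hOBH, h1, h2, h3⟩ := exists_image_of_not_pws hOB hn
  refine ⟨#H, h3, traceFamily_of_group h3 H hOBH le_rfl h1, le_antisymm ?_ ?_⟩
  · obtain ⟨G', k1, k2, k3, k4, hOB', hc', hw'⟩ :=
      exists_image_succ hOBH h1 (aleph0_le_continuum.trans h3)
    refine csInf_le (OrderBot.bddBelow _) ⟨G', k1, k2, k3, k4, hOB', hw', ?_⟩
    refine not_pws_of_card_lt_weight ?_
    rw [hw']
    exact hc'.trans_lt (Order.lt_succ _)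
  · rw [← hw]
    exact (Order.succ_le_of_lt h1).trans h2

/-- If the least `mu ≥ 𝔠` with `TraceFamily mu` satisfies `mu ^ ℵ₀ = mu`, then `σ = mu⁺`. -/
theorem sigma_eq_succ_of_least {mu : Cardinal.{0}} (h1 : 𝔠 ≤ mu) (h2 : TraceFamily mu)
    (h3 : ∀ lam : Cardinal.{0}, 𝔠 ≤ lam → TraceFamily lam → mu ≤ lam)
    (h4 : mu ^ (ℵ₀ : Cardinal.{0}) = mu) : sigma = Order.succ mu := by
  have h5 : (2 : Cardinal.{0}) ≤ mu := (Cardinal.ofNat_lt_aleph0.le).trans
    (aleph0_le_continuum.trans h1)
  apply le_antisymm (sigma_le h4 h5 h2)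
  obtain ⟨lam, hl1, hl2, hl3⟩ := sigma_eq_succ
  rw [hl3]
  exact Order.succ_le_succ (h3 lam hl1 hl2)

theorem continuum_iterate_pow (n : ℕ) :
    ((Order.succ^[n]) (𝔠 : Cardinal.{0})) ^ (ℵ₀ : Cardinal.{0}) = (Order.succ^[n]) 𝔠 ∧
      𝔠 ≤ (Order.succ^[n]) (𝔠 : Cardinal.{0}) := by
  induction n with
  | zero => exact ⟨continuum_power_aleph0, le_rfl⟩
  | succ n ih =>
    rw [Function.iterate_succ_apply']
    refine ⟨succ_pow_aleph0 ih.1 ?_, ih.2.trans (Order.le_succ _)⟩
    exact (Cardinal.ofNat_lt_aleph0.le).trans (aleph0_le_continuum.trans ih.2)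

theorem exists_eq_iterate_of_le {lam : Cardinal.{0}} (h : 𝔠 ≤ lam) {n : ℕ}
    (hn : lam < (Order.succ^[n]) 𝔠) : ∃ m < n, lam = (Order.succ^[m]) 𝔠 := by
  induction n with
  | zero => exact absurd h (not_le.2 hn)
  | succ n ih =>
    rw [Function.iterate_succ_apply', Order.lt_succ_iff] at hn
    rcases hn.lt_or_eq with h' | h'
    · obtain ⟨m, hm, e⟩ := ih h'
      exact ⟨m, hm.trans (Nat.lt_succ_self n), e⟩
    · exact ⟨n, Nat.lt_succ_self n, h'⟩

theorem iterate_succ_lt {m n : ℕ} (hm : m < n) :
    (Order.succ^[m]) (𝔠 : Cardinal.{0}) < (Order.succ^[n]) 𝔠 := by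
  induction n with
  | zero => exact absurd hm (Nat.not_lt_zero m)
  | succ n ih =>
    rw [Function.iterate_succ_apply']
    rcases Nat.lt_succ_iff_lt_or_eq.1 hm with h | h
    · exact (ih h).trans (Order.lt_succ _)
    · rw [h]
      exact Order.lt_succ _

/-- The exact description of the statement `σ = 𝔠^{+(n+1)}`, for every natural number `n`. -/
theorem sigma_eq_iterate_iff (n : ℕ) : sigma = (Order.succ^[n + 1]) 𝔠 ↔
    (TraceFamily ((Order.succ^[n]) 𝔠) ∧ ∀ m < n, ¬ TraceFamily ((Order.succ^[m]) 𝔠)) := by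
  constructor
  · intro h
    rw [Function.iterate_succ_apply'] at h
    obtain ⟨lam, hl1, hl2, hl3⟩ := sigma_eq_succ
    rw [h] at hl3
    have e : (Order.succ^[n]) 𝔠 = lam := Order.succ_injective hl3
    refine ⟨e ▸ hl2, fun m hm hT => ?_⟩
    have h1 : sigma ≤ Order.succ ((Order.succ^[m]) 𝔠) := by
      obtain ⟨hp, hc⟩ := continuum_iterate_pow m
      refine sigma_le hp ?_ hT
      exact (Cardinal.ofNat_lt_aleph0.le).trans (aleph0_le_continuum.trans hc)
    rw [h, Order.succ_le_succ_iff] at h1
    exact absurd h1 (not_le.2 (iterate_succ_lt hm))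
  · rintro ⟨hT, hm⟩
    rw [Function.iterate_succ_apply']
    obtain ⟨hp, hc⟩ := continuum_iterate_pow n
    refine sigma_eq_succ_of_least hc hT ?_ hp
    intro lam hl1 hl2
    by_contra hcon
    obtain ⟨m, hmn, rfl⟩ := exists_eq_iterate_of_le hl1 (not_le.1 hcon)
    exact hm m hmn hl2

end Pool.Agent.Kur
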